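import Mathlib

/-!
# One block

Inside one block `[s, t)` of a basis `e` (coordinate functionals `f`) we replace the vectors
`e j` with `j ∈ A` by `e j + e q`, and the vector `e q` by a vector `w` on which the functional
`f q - ∑_{j ∈ A} f j` is almost norming.
-/

namespace Pool.Agent.H61.PB

open Filter Topology

variable {𝕜 : Type*} [RCLike 𝕜] {E : Type*} [NormedAddCommGroup E] [NormedSpace 𝕜 E]

/-- The functional `f q - ∑_{j ∈ A} f j`. -/
noncomputable def phi (f : ℕ → E →L[𝕜] 𝕜) (q : ℕ) (A : Finset ℕ) : E →L[𝕜] 𝕜 :=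
  f q - ∑ j ∈ A, f j

theorem phi_apply (f : ℕ → E →L[𝕜] 𝕜) (q : ℕ) (A : Finset ℕ) (y : E) :
    phi f q A y = f q y - ∑ j ∈ A, f j y := by
  simp [phi]

/-- The new vectors. -/
noncomputable def newX (e : ℕ → E) (q : ℕ) (A : Finset ℕ) (w : E) (j : ℕ) : E :=
  if j = q then w else if j ∈ A then e j + e q else e j

/-- The new functionals. -/
noncomputable def newF (f : ℕ → E →L[𝕜] 𝕜) (q : ℕ) (A : Finset ℕ) (w : E) (j : ℕ) :
    E →L[𝕜] 𝕜 :=
  if j = q then phi f q A else f j - (f j w) • phi f q A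

/-- Existence of an almost norming vector. -/
theorem exists_w (e : ℕ → E) (f : ℕ → E →L[𝕜] 𝕜)
    (hof : ∀ i j, f i (e j) = if i = j then 1 else 0) (q : ℕ) (A : Finset ℕ) (hq : q ∉ A)
    (K : ℝ)
    (hK : ∀ y, ‖∑ i ∈ insert q A, f i y • e i‖ ≤ K * ‖y‖) :
    ∃ w : E, phi f q A w = 1 ∧ (∀ y, ‖phi f q A y‖ * ‖w‖ ≤ 2 * K * ‖y‖) ∧
      ∑ i ∈ insert q A, f i w • e i = w := by
  classical
  set φ := phi f q A with hφ
  have h1 : φ (e q) = 1 := by
    rw [hφ, phi_apply, hof, if_pos rfl, Finset.sum_eq_zero, sub_zero]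
    intro j hj
    rw [hof, if_neg]
    rintro rfl
    exact hq hj
  have hpos : 0 < ‖φ‖ := by
    rw [norm_pos_iff]
    intro h
    rw [h] at h1
    simp at h1
  obtain ⟨z, hz1, hz2⟩ := φ.exists_lt_apply_of_lt_opNorm (half_lt_self hpos)
  have hz0 : φ z ≠ 0 := by
    intro h
    rw [h, norm_zero] at hz2
    linarith
  have hfP : ∀ y : E, ∀ i ∈ insert q A, f i (∑ j ∈ insert q A, f j y • e j) = f i y := by
    intro y i hi
    rw [map_sum]
    simp only [map_smul, hof, smul_eq_mul, mul_ite, mul_one, mul_zero]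
    rw [Finset.sum_ite_eq, if_pos hi]
  have hφP : ∀ y : E, φ (∑ j ∈ insert q A, f j y • e j) = φ y := by
    intro y
    rw [hφ, phi_apply, phi_apply, hfP y q (Finset.mem_insert_self _ _)]
    congr 1
    exact Finset.sum_congr rfl fun j hj => hfP y j (Finset.mem_insert_of_mem hj)
  have hK0 : 0 ≤ K := by
    have h2 := hK (e q)
    have h3 : 0 < ‖e q‖ := by
      rw [norm_pos_iff]
      intro h
      rw [h] at h1
      simp at h1
    have h4 := (norm_nonneg _).trans h2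
    by_contra hc
    push Not at hc
    nlinarith
  refine ⟨(φ z)⁻¹ • ∑ j ∈ insert q A, f j z • e j, ?_, fun y => ?_, ?_⟩
  · rw [map_smul, hφP, smul_eq_mul, inv_mul_cancel₀ hz0]
  · have h2 : ‖φ y‖ ≤ ‖φ‖ * ‖y‖ := φ.le_opNorm y
    have h3 : ‖(φ z)⁻¹ • ∑ j ∈ insert q A, f j z • e j‖ ≤ 2 * K / ‖φ‖ := by
      rw [norm_smul, norm_inv]
      have h4 := hK z
      have h5 : ‖∑ j ∈ insert q A, f j z • e j‖ ≤ K := by
        refine h4.trans ?_
        nlinarith [norm_nonneg z]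
      rw [inv_mul_le_iff₀ (by positivity)]
      calc _ ≤ K := h5
        _ = (‖φ‖ / 2) * (2 * K / ‖φ‖) := by field_simp
        _ ≤ ‖φ z‖ * (2 * K / ‖φ‖) := by gcongr
    calc ‖φ y‖ * ‖(φ z)⁻¹ • ∑ j ∈ insert q A, f j z • e j‖
        ≤ (‖φ‖ * ‖y‖) * (2 * K / ‖φ‖) := by gcongr
      _ = 2 * K * ‖y‖ := by field_simp
  · rw [Finset.smul_sum]
    refine Finset.sum_congr rfl fun i hi => ?_
    rw [smul_smul]
    congr 1
    rw [← Finset.smul_sum, map_smul, hfP z i hi, smul_eq_mul]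

end Pool.Agent.H61.PB
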