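import Pool.Agent.H61.PB.Block

namespace Pool.Agent.H61.PB

open Filter Topology

variable {𝕜 : Type*} [RCLike 𝕜] {E : Type*} [NormedAddCommGroup E] [NormedSpace 𝕜 E]

/-- The rearrangement property of scalars which we use (Steinitz). -/
def SteinitzProp (𝕜 : Type*) [RCLike 𝕜] : Prop :=
  ∀ (A : Finset ℕ) (a : ℕ → 𝕜) (M : ℝ), (∀ j ∈ A, ‖a j‖ ≤ M) → ‖∑ j ∈ A, a j‖ ≤ M →
    ∃ p : Equiv.Perm ℕ, (∀ i ∉ A, p i = i) ∧
      ∀ N : ℕ, ‖∑ i ∈ A.filter (fun i => i < N), a (p i)‖ ≤ 7 * M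

theorem perm_mem {A : Finset ℕ} {p : Equiv.Perm ℕ} (hp : ∀ i ∉ A, p i = i) {i : ℕ}
    (hi : i ∈ A) : p i ∈ A := by
  by_contra h
  have h1 := hp _ h
  have h2 := p.injective h1
  rw [h2] at h
  exact h hi

theorem sum_filter_perm (A : Finset ℕ) (p : Equiv.Perm ℕ) (hp : ∀ i ∉ A, p i = i)
    (N : ℕ) : ∃ T : Finset ℕ, T ⊆ A ∧ ∀ G : ℕ → E, ∑ i ∈ A.filter (fun i => i < N), G (p i) =
      ∑ j ∈ T, G j := by
  refine ⟨(A.filter (fun i => i < N)).map p.toEmbedding, ?_, fun G => ?_⟩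
  · intro j hj
    rw [Finset.mem_map] at hj
    obtain ⟨i, hi, rfl⟩ := hj
    exact perm_mem hp (Finset.mem_filter.1 hi).1
  · rw [Finset.sum_map]
    rfl

theorem sum_perm_all {F : Type*} [AddCommMonoid F] (A : Finset ℕ) (p : Equiv.Perm ℕ)
    (hp : ∀ i ∉ A, p i = i) (G : ℕ → F) : ∑ i ∈ A, G (p i) = ∑ i ∈ A, G i := by
  refine Finset.sum_bij (fun i _ => p i) (fun i hi => perm_mem hp hi)
    (fun a _ b _ h => p.injective h) (fun b hb => ?_) (fun i _ => rfl)
  refine ⟨p.symm b, ?_, p.apply_symm_apply b⟩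
  by_contra hc
  have := hp _ hc
  rw [Equiv.apply_symm_apply] at this
  rw [← this] at hc
  exact hc hb

theorem newF_smul_newX (e : ℕ → E) (f : ℕ → E →L[𝕜] 𝕜) (q : ℕ) (A : Finset ℕ) (hq : q ∉ A)
    (w y v : E) (hv : v = y - phi f q A y • w) (p : Equiv.Perm ℕ) (hp : ∀ i ∉ A, p i = i)
    (hw : ∀ i, i ∉ insert q A → f i w = 0) (i : ℕ) :
    newF f q A w (p i) y • newX e q A w (p i) = f i y • e i +
      (if i ∈ A then f (p i) v • e (p i) + f (p i) v • e q - f i y • e i else 0) +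
      (if i = q then phi f q A y • w - f q y • e q else 0) := by
  classical
  by_cases hi : i ∈ A
  · have h1 : p i ∈ A := perm_mem hp hi
    have h2 : p i ≠ q := fun h => hq (h ▸ h1)
    have h3 : i ≠ q := fun h => hq (h ▸ hi)
    rw [newF, newX, if_neg h2, if_neg h2, if_pos h1, if_pos hi, if_neg h3]
    have h4 : (f (p i) - (f (p i) w) • phi f q A) y = f (p i) v := by
      rw [hv]
      simp [mul_comm]
    rw [h4, smul_add]
    abel
  · rw [hp i hi, if_neg hi]
    by_cases h3 : i = q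
    · subst h3
      rw [newF, newX, if_pos rfl, if_pos rfl, if_pos rfl]
      abel
    · rw [newF, newX, if_neg h3, if_neg h3, if_neg hi, if_neg h3]
      have h4 : f i w = 0 := hw i (by
        rw [Finset.mem_insert]
        push Not
        exact ⟨h3, hi⟩)
      rw [h4]
      simp

theorem block1 (hst : SteinitzProp 𝕜) (e : ℕ → E) (f : ℕ → E →L[𝕜] 𝕜)
    (hof : ∀ i j, f i (e j) = if i = j then 1 else 0) (s t q : ℕ) (A : Finset ℕ) (hq : q ∉ A)
    (hqs : q ∈ Finset.Ico s t) (hAs : A ⊆ Finset.Ico s t) (K K₂ : ℝ) (hK0 : 0 ≤ K)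
    (hK : ∀ T ⊆ insert q A, ∀ y, ‖∑ i ∈ T, f i y • e i‖ ≤ K * ‖y‖)
    (hK2 : ∀ N y, ‖∑ i ∈ Finset.range N, f i y • e i‖ ≤ K₂ * ‖y‖)
    (hn : ∀ i ∈ insert q A, ‖e i‖ = 1)
    (w : E) (hw1 : phi f q A w = 1) (hw2 : ∀ y, ‖phi f q A y‖ * ‖w‖ ≤ 2 * K * ‖y‖)
    (hw3 : ∑ i ∈ insert q A, f i w • e i = w) (y : E) :
    ∃ p : Equiv.Perm ℕ, (∀ i ∉ A, p i = i) ∧
      (∀ N, s ≤ N → N ≤ t → ‖∑ i ∈ Finset.Ico s N, newF f q A w (p i) y • newX e q A w (p i)‖ ≤
        (2 * K₂ + 8 * (K * (1 + 2 * K)) + 4 * K) * ‖y‖) ∧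
      ∑ i ∈ Finset.Ico s t, newF f q A w (p i) y • newX e q A w (p i) =
        ∑ i ∈ Finset.Ico s t, f i y • e i := by
  classical
  obtain ⟨v, hv⟩ : ∃ v, v = y - phi f q A y • w := ⟨_, rfl⟩
  have hφv : phi f q A v = 0 := by
    rw [hv, map_sub, map_smul, hw1]
    simp
  have hAv : ∑ j ∈ A, f j v = f q v := by
    have h := phi_apply f q A v
    rw [hφv] at h
    linear_combination h
  have hvn : ‖v‖ ≤ (1 + 2 * K) * ‖y‖ := by
    rw [hv]
    refine (norm_sub_le _ _).trans ?_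
    rw [norm_smul]
    have := hw2 y
    linarith
  have hcoord : ∀ j ∈ insert q A, ∀ z, ‖f j z‖ ≤ K * ‖z‖ := by
    intro j hj z
    have h := hK {j} (Finset.singleton_subset_iff.2 hj) z
    rw [Finset.sum_singleton, norm_smul, hn j hj, mul_one] at h
    exact h
  have hM : ∀ j ∈ insert q A, ‖f j v‖ ≤ K * ((1 + 2 * K) * ‖y‖) := fun j hj =>
    (hcoord j hj v).trans (mul_le_mul_of_nonneg_left hvn hK0)
  have hw0 : ∀ i, i ∉ insert q A → f i w = 0 := by
    intro i hi
    rw [← hw3, map_sum]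
    refine Finset.sum_eq_zero fun j hj => ?_
    rw [map_smul, hof, if_neg]
    · simp
    · rintro rfl
      exact hi hj
  obtain ⟨p, hp, hpN⟩ := hst A (fun j => f j v) (K * ((1 + 2 * K) * ‖y‖))
    (fun j hj => hM j (Finset.mem_insert_of_mem hj))
    (by
      rw [hAv]
      exact hM q (Finset.mem_insert_self _ _))
  refine ⟨p, hp, ?_, ?_⟩
  · intro N hsN hNt
    simp only [newF_smul_newX e f q A hq w y v hv p hp hw0]
    rw [Finset.sum_add_distrib, Finset.sum_add_distrib]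
    have e1 : ∑ i ∈ Finset.Ico s N, (if i ∈ A then f (p i) v • e (p i) + f (p i) v • e q -
        f i y • e i else 0) = ∑ i ∈ A.filter (fun i => i < N), f (p i) v • e (p i) +
        (∑ i ∈ A.filter (fun i => i < N), f (p i) v) • e q -
        ∑ i ∈ A.filter (fun i => i < N), f i y • e i := by
      rw [← Finset.sum_filter]
      have : (Finset.Ico s N).filter (fun i => i ∈ A) = A.filter (fun i => i < N) := by
        ext i
        simp only [Finset.mem_filter, Finset.mem_Ico]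
        constructor
        · rintro ⟨⟨_, h2⟩, h3⟩
          exact ⟨h3, h2⟩
        · rintro ⟨h3, h2⟩
          exact ⟨⟨(Finset.mem_Ico.1 (hAs h3)).1, h2⟩, h3⟩
      rw [this, Finset.sum_sub_distrib, Finset.sum_add_distrib, Finset.sum_smul]
    rw [e1]
    have b1 : ‖∑ i ∈ Finset.Ico s N, f i y • e i‖ ≤ 2 * K₂ * ‖y‖ := by
      rw [Finset.sum_Ico_eq_sub _ hsN]
      refine (norm_sub_le _ _).trans ?_
      have h1 := hK2 N y
      have h2 := hK2 s y
      linarith
    have b2 : ‖∑ i ∈ A.filter (fun i => i < N), f (p i) v • e (p i)‖ ≤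
        K * ((1 + 2 * K) * ‖y‖) := by
      obtain ⟨T, hT, hTG⟩ := sum_filter_perm (E := E) A p hp N
      rw [hTG (fun j => f j v • e j)]
      exact (hK T (hT.trans (Finset.subset_insert _ _)) v).trans
        (mul_le_mul_of_nonneg_left hvn hK0)
    have b3 : ‖(∑ i ∈ A.filter (fun i => i < N), f (p i) v) • e q‖ ≤
        7 * (K * ((1 + 2 * K) * ‖y‖)) := by
      rw [norm_smul, hn q (Finset.mem_insert_self _ _), mul_one]
      exact hpN N
    have b4 : ‖∑ i ∈ A.filter (fun i => i < N), f i y • e i‖ ≤ K * ‖y‖ :=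
      hK _ ((Finset.filter_subset _ _).trans (Finset.subset_insert _ _)) y
    have b5 : ‖∑ i ∈ Finset.Ico s N, (if i = q then phi f q A y • w - f q y • e q else 0)‖ ≤
        3 * K * ‖y‖ := by
      have h0 : 0 ≤ K * ‖y‖ := mul_nonneg hK0 (norm_nonneg _)
      rw [Finset.sum_ite_eq']
      split_ifs
      · refine (norm_sub_le _ _).trans ?_
        rw [norm_smul, norm_smul, hn q (Finset.mem_insert_self _ _), mul_one]
        have h1 := hw2 y
        have h2 := hcoord q (Finset.mem_insert_self _ _) y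
        linarith
      · rw [norm_zero]
        linarith
    refine (norm_add_le _ _).trans ?_
    have c1 := norm_add_le (∑ i ∈ Finset.Ico s N, f i y • e i)
      (∑ i ∈ A.filter (fun i => i < N), f (p i) v • e (p i) +
        (∑ i ∈ A.filter (fun i => i < N), f (p i) v) • e q -
        ∑ i ∈ A.filter (fun i => i < N), f i y • e i)
    have c2 := norm_sub_le (∑ i ∈ A.filter (fun i => i < N), f (p i) v • e (p i) +
        (∑ i ∈ A.filter (fun i => i < N), f (p i) v) • e q)
        (∑ i ∈ A.filter (fun i => i < N), f i y • e i)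
    have c3 := norm_add_le (∑ i ∈ A.filter (fun i => i < N), f (p i) v • e (p i))
        ((∑ i ∈ A.filter (fun i => i < N), f (p i) v) • e q)
    linarith
  · simp only [newF_smul_newX e f q A hq w y v hv p hp hw0]
    rw [Finset.sum_add_distrib, Finset.sum_add_distrib, Finset.sum_ite_eq', if_pos hqs,
      ← Finset.sum_filter]
    have hfA : (Finset.Ico s t).filter (fun i => i ∈ A) = A := by
      ext i
      simp only [Finset.mem_filter]
      exact ⟨fun h => h.2, fun h => ⟨hAs h, h⟩⟩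
    rw [hfA, Finset.sum_sub_distrib, Finset.sum_add_distrib, ← Finset.sum_smul]
    rw [sum_perm_all A p hp (fun j => f j v • e j), sum_perm_all A p hp (fun j => f j v), hAv]
    have h6 : ∑ i ∈ A, f i v • e i = ∑ i ∈ A, f i y • e i -
        phi f q A y • ∑ i ∈ A, f i w • e i := by
      rw [Finset.smul_sum, ← Finset.sum_sub_distrib]
      refine Finset.sum_congr rfl fun i _ => ?_
      rw [hv, map_sub, map_smul, sub_smul, smul_eq_mul, smul_smul]
    have h7 : f q v • e q = f q y • e q - phi f q A y • (f q w • e q) := by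
      rw [hv, map_sub, map_smul, sub_smul, smul_eq_mul, smul_smul]
    have h8 : phi f q A y • w = phi f q A y • (f q w • e q) +
        phi f q A y • ∑ i ∈ A, f i w • e i := by
      conv_lhs => rw [← hw3]
      rw [Finset.sum_insert hq, smul_add]
    rw [h6, h7, h8]
    abel

end Pool.Agent.H61.PB
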