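import Pool.Agent.H61.PB.Main

namespace Pool.Agent.H61.PB

open Filter Topology

variable {𝕜 : Type*} [RCLike 𝕜] {E : Type*} [NormedAddCommGroup E] [NormedSpace 𝕜 E]

theorem mult_real (v : ℕ → E) (M : ℝ) (t : ℕ → ℝ) (ht : ∀ j, 0 ≤ t j ∧ t j ≤ 1)
    (A : Finset ℕ) : ∀ w : E, (∀ T ⊆ A, ‖w + ∑ j ∈ T, v j‖ ≤ M) →
    ‖w + ∑ j ∈ A, (t j : 𝕜) • v j‖ ≤ M := by
  classical
  induction A using Finset.induction_on with
  | empty =>
    intro w h
    simpa using h ∅ (Finset.Subset.refl _)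
  | insert i A hi ih =>
    intro w h
    have h1 := ih w fun T hT => h T (hT.trans (Finset.subset_insert _ _))
    have h2 := ih (w + v i) fun T hT => by
      have h3 := h (insert i T) (Finset.insert_subset_insert _ hT)
      rw [Finset.sum_insert (fun h4 => hi (hT h4))] at h3
      rwa [add_assoc]
    have e1 : w + ∑ j ∈ insert i A, (t j : 𝕜) • v j =
        ((1 - t i : ℝ) : 𝕜) • (w + ∑ j ∈ A, (t j : 𝕜) • v j) +
        ((t i : ℝ) : 𝕜) • (w + v i + ∑ j ∈ A, (t j : 𝕜) • v j) := by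
      rw [Finset.sum_insert hi]
      push_cast
      module
    rw [e1]
    refine (norm_add_le _ _).trans ?_
    rw [norm_smul, norm_smul, RCLike.norm_ofReal, RCLike.norm_ofReal,
      abs_of_nonneg (ht i).1, abs_of_nonneg (by linarith [(ht i).2])]
    nlinarith [(ht i).1, (ht i).2]

theorem mult (v : ℕ → E) (M : ℝ) (A : Finset ℕ) (h : ∀ T ⊆ A, ‖∑ j ∈ T, v j‖ ≤ M)
    (θ : ℕ → 𝕜) (hθ : ∀ j, ‖θ j‖ ≤ 1) : ‖∑ j ∈ A, θ j • v j‖ ≤ 4 * M := by
  have key : ∀ t : ℕ → ℝ, (∀ j, 0 ≤ t j ∧ t j ≤ 1) → ‖∑ j ∈ A, (t j : 𝕜) • v j‖ ≤ M := by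
    intro t ht
    have := mult_real (𝕜 := 𝕜) v M t ht A 0 (by simpa using h)
    rwa [zero_add] at this
  have hre : ∀ j, |RCLike.re (θ j)| ≤ 1 := fun j => (RCLike.abs_re_le_norm _).trans (hθ j)
  have him : ∀ j, |RCLike.im (θ j)| ≤ 1 := fun j => (RCLike.abs_im_le_norm _).trans (hθ j)
  have k1 := key (fun j => max (RCLike.re (θ j)) 0) fun j =>
    ⟨le_max_right _ _, max_le (abs_le.1 (hre j)).2 zero_le_one⟩
  have k2 := key (fun j => max (-RCLike.re (θ j)) 0) fun j =>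
    ⟨le_max_right _ _, max_le (by linarith [(abs_le.1 (hre j)).1]) zero_le_one⟩
  have k3 := key (fun j => max (RCLike.im (θ j)) 0) fun j =>
    ⟨le_max_right _ _, max_le (abs_le.1 (him j)).2 zero_le_one⟩
  have k4 := key (fun j => max (-RCLike.im (θ j)) 0) fun j =>
    ⟨le_max_right _ _, max_le (by linarith [(abs_le.1 (him j)).1]) zero_le_one⟩
  have hmax : ∀ r : ℝ, r = max r 0 - max (-r) 0 := by
    intro r
    rcases le_total 0 r with h | h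
    · rw [max_eq_left h, max_eq_right (by linarith)]
      ring
    · rw [max_eq_right h, max_eq_left (by linarith)]
      ring
  have e1 : ∀ j, θ j • v j = ((max (RCLike.re (θ j)) 0 : ℝ) : 𝕜) • v j -
      ((max (-RCLike.re (θ j)) 0 : ℝ) : 𝕜) • v j +
      (RCLike.I : 𝕜) • (((max (RCLike.im (θ j)) 0 : ℝ) : 𝕜) • v j -
      ((max (-RCLike.im (θ j)) 0 : ℝ) : 𝕜) • v j) := by
    intro j
    rw [← sub_smul, ← sub_smul, smul_smul, ← add_smul, ← RCLike.ofReal_sub,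
      ← RCLike.ofReal_sub, ← hmax, ← hmax]
    congr 1
    conv_lhs => rw [← RCLike.re_add_im (θ j)]
    ring
  rw [Finset.sum_congr rfl fun j _ => e1 j, Finset.sum_add_distrib, ← Finset.smul_sum,
    Finset.sum_sub_distrib, Finset.sum_sub_distrib]
  refine (norm_add_le _ _).trans ?_
  have hI : ‖(RCLike.I : 𝕜)‖ ≤ 1 := by
    rcases eq_or_ne (RCLike.I : 𝕜) 0 with h | h
    · rw [h, norm_zero]
      exact zero_le_one
    · exact (RCLike.norm_I_of_ne_zero h).le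
  have s1 := norm_sub_le (∑ j ∈ A, ((max (RCLike.re (θ j)) 0 : ℝ) : 𝕜) • v j)
    (∑ j ∈ A, ((max (-RCLike.re (θ j)) 0 : ℝ) : 𝕜) • v j)
  have s2 := norm_sub_le (∑ j ∈ A, ((max (RCLike.im (θ j)) 0 : ℝ) : 𝕜) • v j)
    (∑ j ∈ A, ((max (-RCLike.im (θ j)) 0 : ℝ) : 𝕜) • v j)
  rw [norm_smul]
  have s3 : ‖(RCLike.I : 𝕜)‖ * ‖∑ j ∈ A, ((max (RCLike.im (θ j)) 0 : ℝ) : 𝕜) • v j -
      ∑ j ∈ A, ((max (-RCLike.im (θ j)) 0 : ℝ) : 𝕜) • v j‖ ≤
      1 * ‖∑ j ∈ A, ((max (RCLike.im (θ j)) 0 : ℝ) : 𝕜) • v j -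
      ∑ j ∈ A, ((max (-RCLike.im (θ j)) 0 : ℝ) : 𝕜) • v j‖ := by gcongr
  linarith

/-- From failure of the lower `ℓ₁` estimate to small convex combinations. -/
theorem small_convex (e : ℕ → E) (f : ℕ → E →L[𝕜] 𝕜)
    (hof : ∀ i j, f i (e j) = if i = j then 1 else 0) (U : Set ℕ) (K : ℝ) (hK0 : 0 ≤ K)
    (hK : ∀ T : Finset ℕ, (T : Set ℕ) ⊆ U → ∀ y, ‖∑ i ∈ T, f i y • e i‖ ≤ K * ‖y‖)
    (hl : ¬ ∃ c : ℝ, 0 < c ∧ ∀ (A : Finset ℕ), (A : Set ℕ) ⊆ U → ∀ s : ℕ → 𝕜,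
      c * ∑ j ∈ A, ‖s j‖ ≤ ‖∑ j ∈ A, s j • e j‖) (δ : ℝ) (hδ : 0 < δ) :
    ∃ (A : Finset ℕ) (a : ℕ → ℝ), (A : Set ℕ) ⊆ U ∧
      (∀ j ∈ A, 0 ≤ a j) ∧ ∑ j ∈ A, a j = 1 ∧ ‖∑ j ∈ A, (a j : 𝕜) • e j‖ ≤ δ := by
  classical
  push Not at hl
  have hL0 : 0 < K + 1 := by linarith
  obtain ⟨A, hA, s, hs⟩ := hl (δ / (4 * (K + 1))) (by positivity)
  set D := ∑ j ∈ A, ‖s j‖ with hD
  have hD0 : 0 < D := by
    by_contra hc
    push Not at hc
    have h1 : 0 ≤ D := Finset.sum_nonneg fun _ _ => norm_nonneg _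
    have h2 : D = 0 := le_antisymm hc h1
    rw [h2, mul_zero] at hs
    have h3 : ∀ j ∈ A, s j = 0 := by
      intro j hj
      have h4 := (Finset.sum_eq_zero_iff_of_nonneg fun i _ => norm_nonneg (s i)).1 h2 j hj
      exact norm_eq_zero.1 h4
    rw [Finset.sum_eq_zero fun j hj => by rw [h3 j hj, zero_smul], norm_zero] at hs
    exact lt_irrefl _ hs
  refine ⟨A, fun j => ‖s j‖ / D, hA, fun j _ => div_nonneg (norm_nonneg _) hD0.le, ?_, ?_⟩
  · rw [← Finset.sum_div, div_self hD0.ne']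
  · have h1 : ‖∑ j ∈ A, (if s j = 0 then 0 else (‖s j‖ : 𝕜) / s j) • (s j • e j)‖ ≤
        4 * (K * ‖∑ j ∈ A, s j • e j‖) := by
      refine mult (fun j => s j • e j) _ A (fun T hT => ?_) _ (fun j => ?_)
      · have h2 := hK T (fun i hi => hA (hT hi)) (∑ j ∈ A, s j • e j)
        have h3 : ∑ i ∈ T, f i (∑ j ∈ A, s j • e j) • e i = ∑ i ∈ T, s i • e i := by
          refine Finset.sum_congr rfl fun i hi => ?_
          rw [map_sum]
          simp only [map_smul, hof, smul_eq_mul, mul_ite, mul_one, mul_zero]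
          rw [Finset.sum_ite_eq, if_pos (hT hi)]
        rw [h3] at h2
        exact h2
      · split_ifs with h
        · rw [norm_zero]
          exact zero_le_one
        · rw [norm_div, RCLike.norm_ofReal, abs_of_nonneg (norm_nonneg _),
            div_self (norm_ne_zero_iff.2 h)]
    have h2 : ∑ j ∈ A, (if s j = 0 then 0 else (‖s j‖ : 𝕜) / s j) • (s j • e j) =
        ∑ j ∈ A, (‖s j‖ : 𝕜) • e j := by
      refine Finset.sum_congr rfl fun j _ => ?_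
      split_ifs with h
      · rw [h]
        simp
      · rw [smul_smul, div_mul_cancel₀ _ h]
    rw [h2] at h1
    have h3 : ∑ j ∈ A, ((‖s j‖ / D : ℝ) : 𝕜) • e j =
        ((D⁻¹ : ℝ) : 𝕜) • ∑ j ∈ A, (‖s j‖ : 𝕜) • e j := by
      rw [Finset.smul_sum]
      refine Finset.sum_congr rfl fun j _ => ?_
      rw [smul_smul, ← RCLike.ofReal_mul]
      congr 2
      rw [div_eq_inv_mul]
    rw [h3, norm_smul, RCLike.norm_ofReal, abs_of_nonneg (by positivity),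
      inv_mul_le_iff₀ hD0]
    have h4 : K * ‖∑ j ∈ A, s j • e j‖ ≤ (K + 1) * (δ / (4 * (K + 1)) * D) := by
      have : ‖∑ j ∈ A, s j • e j‖ ≤ δ / (4 * (K + 1)) * D := hs.le
      gcongr
      linarith
    have h5 : 4 * ((K + 1) * (δ / (4 * (K + 1)) * D)) = D * δ := by
      field_simp
    linarith

end Pool.Agent.H61.PB
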