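import Pool.Agent.H61.PB.Block2

namespace Pool.Agent.H61.PB

open Filter Topology

variable {𝕜 : Type*} [RCLike 𝕜] {E : Type*} [NormedAddCommGroup E] [NormedSpace 𝕜 E]

theorem phi_e (e : ℕ → E) (f : ℕ → E →L[𝕜] 𝕜)
    (hof : ∀ i j, f i (e j) = if i = j then 1 else 0) (q : ℕ) (A : Finset ℕ) (j : ℕ) :
    phi f q A (e j) = (if q = j then 1 else 0) - (if j ∈ A then 1 else 0) := by
  rw [phi_apply, hof]
  congr 1
  simp only [hof]
  rw [Finset.sum_ite_eq']

theorem bio_same (e : ℕ → E) (f : ℕ → E →L[𝕜] 𝕜)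
    (hof : ∀ i j, f i (e j) = if i = j then 1 else 0) (q : ℕ) (A : Finset ℕ) (hq : q ∉ A)
    (w : E) (hw1 : phi f q A w = 1) (i j : ℕ) :
    newF f q A w i (newX e q A w j) = if i = j then 1 else 0 := by
  have hP : phi f q A (newX e q A w j) = if j = q then 1 else 0 := by
    unfold newX
    split_ifs with h1 h2
    · exact hw1
    · rw [map_add, phi_e e f hof, phi_e e f hof, if_neg (fun h => h1 h.symm), if_pos h2,
        if_pos rfl, if_neg hq]
      ring
    · rw [phi_e e f hof, if_neg (fun h => h1 h.symm), if_neg h2, sub_zero]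
  unfold newF
  split_ifs with h1 h2 h2
  · rw [hP, if_pos (by rw [← h2, h1])]
  · rw [hP, if_neg (fun h => h2 (by rw [h, h1]))]
  · subst h2
    have h3 : (f i - (f i w) • phi f q A) (newX e q A w i) =
      f i (newX e q A w i) - f i w * phi f q A (newX e q A w i) := by simp
    rw [h3, hP, if_neg h1, newX, if_neg h1]
    split_ifs with h4
    · rw [map_add, hof, hof, if_pos rfl, if_neg h1]
      ring
    · rw [hof, if_pos rfl]
      ring
  · have h3 : (f i - (f i w) • phi f q A) (newX e q A w j) =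
      f i (newX e q A w j) - f i w * phi f q A (newX e q A w j) := by simp
    rw [h3, hP]
    by_cases h5 : j = q
    · rw [if_pos h5, newX, if_pos h5]
      ring
    · rw [if_neg h5, newX, if_neg h5]
      split_ifs with h4
      · rw [map_add, hof, hof, if_neg h2, if_neg h1]
        ring
      · rw [hof, if_neg h2]
        ring

theorem newF_congr (f : ℕ → E →L[𝕜] 𝕜) (q : ℕ) (A : Finset ℕ) (w : E) (i : ℕ) (y z : E)
    (h : ∀ m ∈ insert i (insert q A), f m y = f m z) :
    newF f q A w i y = newF f q A w i z := by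
  have h1 : phi f q A y = phi f q A z := by
    rw [phi_apply, phi_apply, h q (by simp)]
    congr 1
    exact Finset.sum_congr rfl fun m hm => h m (by simp [hm])
  unfold newF
  split_ifs
  · exact h1
  · simp only [_root_.sub_apply, _root_.smul_apply, h1, h i (by simp)]

theorem coord_newX (e : ℕ → E) (f : ℕ → E →L[𝕜] 𝕜)
    (hof : ∀ i j, f i (e j) = if i = j then 1 else 0) (q : ℕ) (A : Finset ℕ)
    (w : E) (hw : ∀ i, i ∉ insert q A → f i w = 0) (j m : ℕ)
    (hm : m ∉ insert j (insert q A)) : f m (newX e q A w j) = 0 := by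
  rw [Finset.mem_insert] at hm
  push Not at hm
  have h3 : m ≠ q := fun h => hm.2 (by simp [h])
  unfold newX
  split_ifs with h1 h2
  · exact hw m hm.2
  · rw [map_add, hof, hof, if_neg hm.1, if_neg h3]
    simp
  · rw [hof, if_neg hm.1]

/-- Block numbers. -/
theorem exists_blk (b : ℕ → ℕ) (hb : StrictMono b) (h0 : b 0 = 0) :
    ∃ blk : ℕ → ℕ, ∀ n, b (blk n) ≤ n ∧ n < b (blk n + 1) := by
  classical
  have hex : ∀ n, ∃ k, n < b (k + 1) := fun n =>
    ⟨n, lt_of_lt_of_le (Nat.lt_succ_self n) (hb.le_apply)⟩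
  refine ⟨fun n => Nat.find (hex n), fun n => ⟨?_, Nat.find_spec (hex n)⟩⟩
  change b (Nat.find (hex n)) ≤ n
  rcases Nat.eq_zero_or_eq_succ_pred (Nat.find (hex n)) with h | h
  · rw [h, h0]
    exact Nat.zero_le _
  · have h1 := Nat.find_min (hex n) (m := (Nat.find (hex n)).pred) (by omega)
    rw [h]
    push Not at h1
    exact h1

theorem blk_unique {b : ℕ → ℕ} (hb : StrictMono b) {n k l : ℕ} (h1 : b k ≤ n)
    (h2 : n < b (k + 1)) (h3 : b l ≤ n) (h4 : n < b (l + 1)) : k = l := by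
  rcases lt_trichotomy k l with h | h | h
  · have := hb.monotone (show k + 1 ≤ l by omega)
    omega
  · exact h
  · have := hb.monotone (show l + 1 ≤ k by omega)
    omega

theorem exists_glue (b blk : ℕ → ℕ) (hb : StrictMono b)
    (hblk : ∀ n, b (blk n) ≤ n ∧ n < b (blk n + 1)) (p : ℕ → Equiv.Perm ℕ)
    (hp : ∀ k i, i ∉ Finset.Ico (b k) (b (k + 1)) → p k i = i) :
    ∃ σ : ℕ ≃ ℕ, ∀ n, σ n = p (blk n) n := by
  have key : ∀ k i, i ∈ Finset.Ico (b k) (b (k + 1)) → p k i ∈ Finset.Ico (b k) (b (k + 1)) := by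
    intro k i hi
    by_contra h
    have h1 := hp k _ h
    have h2 := (p k).injective h1
    rw [h2] at h
    exact h hi
  have key2 : ∀ k i, i ∈ Finset.Ico (b k) (b (k + 1)) →
      (p k).symm i ∈ Finset.Ico (b k) (b (k + 1)) := by
    intro k i hi
    by_contra h
    have h1 := hp k _ h
    rw [Equiv.apply_symm_apply] at h1
    rw [← h1] at h
    exact h hi
  have hmem : ∀ n, n ∈ Finset.Ico (b (blk n)) (b (blk n + 1)) := fun n =>
    Finset.mem_Ico.2 (hblk n)
  have hu : ∀ n k, n ∈ Finset.Ico (b k) (b (k + 1)) → blk n = k := fun n k h =>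
    blk_unique hb (hblk n).1 (hblk n).2 (Finset.mem_Ico.1 h).1 (Finset.mem_Ico.1 h).2
  refine ⟨⟨fun n => p (blk n) n, fun n => (p (blk n)).symm n, fun n => ?_, fun n => ?_⟩,
    fun n => rfl⟩
  · simp only
    rw [hu _ _ (key _ _ (hmem n)), Equiv.symm_apply_apply]
  · simp only
    rw [hu _ _ (key2 _ _ (hmem n)), Equiv.apply_symm_apply]

end Pool.Agent.H61.PB
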