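import Pool.Agent.H61.PB.Sys

/-!
# The `ℓ₁` block: coefficients and a good order
-/

namespace Pool.Agent.H61.PB

variable {E : Type*} [NormedAddCommGroup E] [NormedSpace ℝ E]

/-- The new coefficients. -/
noncomputable def al (m : ℕ) (c : ℕ → ℝ) (j : ℕ) : ℝ :=
  ∑ i ∈ Finset.range (j + 1), c i -
    ((m : ℝ) + 1)⁻¹ * ∑ j ∈ Finset.range m, ∑ i ∈ Finset.range (j + 1), c i

/-- The new vectors. -/
noncomputable def XX (m : ℕ) (v : ℕ → E) (j : ℕ) : E :=
  if j < m then v 0 + (v j - v (j + 1)) else v j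

theorem al_succ (m : ℕ) (c : ℕ → ℝ) (j : ℕ) : al m c (j + 1) - al m c j = c (j + 1) := by
  unfold al
  rw [Finset.sum_range_succ _ (j + 1)]
  ring

theorem al_sum (m : ℕ) (c : ℕ → ℝ) : ∑ j ∈ Finset.range m, al m c j + al m c 0 = c 0 := by
  unfold al
  rw [Finset.sum_sub_distrib, Finset.sum_const, Finset.card_range, nsmul_eq_mul, zero_add,
    Finset.sum_range_one]
  have h : (m : ℝ) + 1 ≠ 0 := by positivity
  field_simp
  ring

theorem abel_id (h : ℕ → ℝ) (v : ℕ → E) (κ : ℕ) :
    ∑ j ∈ Finset.range κ, h j • (v j - v (j + 1)) + h κ • v κ =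
      h 0 • v 0 + ∑ j ∈ Finset.range κ, (h (j + 1) - h j) • v (j + 1) := by
  induction κ with
  | zero => simp
  | succ κ ih =>
    rw [Finset.sum_range_succ, Finset.sum_range_succ, ← add_assoc, ← ih, smul_sub, sub_smul]
    abel

theorem abel_norm (h : ℕ → ℝ) (v : ℕ → E) (κ : ℕ) (hv : ∀ j ≤ κ, ‖v j‖ = 1) :
    ‖∑ j ∈ Finset.range κ, h j • (v j - v (j + 1)) + h κ • v κ‖ ≤
      |h 0| + ∑ j ∈ Finset.range κ, |h (j + 1) - h j| := by
  rw [abel_id]
  refine (norm_add_le _ _).trans (add_le_add ?_ ?_)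
  · rw [norm_smul, hv 0 (Nat.zero_le _), mul_one, Real.norm_eq_abs]
  · refine (norm_sum_le _ _).trans (Finset.sum_le_sum fun j hj => ?_)
    rw [Finset.mem_range] at hj
    rw [norm_smul, hv (j + 1) hj, mul_one, Real.norm_eq_abs]

theorem XX_sum (m : ℕ) (c : ℕ → ℝ) (v : ℕ → E) :
    ∑ j ∈ Finset.range (m + 1), al m c j • XX m v j = ∑ j ∈ Finset.range (m + 1), c j • v j := by
  have h1 : ∑ j ∈ Finset.range m, al m c j • XX m v j =
      ∑ j ∈ Finset.range m, (al m c j • v 0 + al m c j • (v j - v (j + 1))) := by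
    refine Finset.sum_congr rfl fun j hj => ?_
    rw [XX, if_pos (Finset.mem_range.1 hj), smul_add]
  rw [Finset.sum_range_succ, h1, Finset.sum_add_distrib, add_assoc, XX, if_neg (lt_irrefl m),
    abel_id, ← Finset.sum_smul, ← add_assoc, ← add_smul, al_sum, Finset.sum_range_succ', add_comm]
  congr 1
  exact Finset.sum_congr rfl fun j _ => by rw [al_succ]

theorem al_bound (m : ℕ) (c : ℕ → ℝ) (j : ℕ) (hj : j ≤ m) :
    |al m c j| ≤ 2 * ∑ i ∈ Finset.range (m + 1), |c i| := by
  have h0 : 0 ≤ ∑ i ∈ Finset.range (m + 1), |c i| := Finset.sum_nonneg fun _ _ => abs_nonneg _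
  have h1 : ∀ k ≤ m, |∑ i ∈ Finset.range (k + 1), c i| ≤ ∑ i ∈ Finset.range (m + 1), |c i| := by
    intro k hk
    refine (Finset.abs_sum_le_sum_abs _ _).trans ?_
    exact Finset.sum_le_sum_of_subset_of_nonneg (Finset.range_mono (by omega))
      fun _ _ _ => abs_nonneg _
  have h2 : |∑ j ∈ Finset.range m, ∑ i ∈ Finset.range (j + 1), c i| ≤
      m * ∑ i ∈ Finset.range (m + 1), |c i| := by
    refine (Finset.abs_sum_le_sum_abs _ _).trans ?_
    have := Finset.sum_le_card_nsmul (Finset.range m)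
      (fun j => |∑ i ∈ Finset.range (j + 1), c i|) (∑ i ∈ Finset.range (m + 1), |c i|)
      (fun k hk => h1 k (Finset.mem_range.1 hk).le)
    rwa [Finset.card_range, nsmul_eq_mul] at this
  have h3 : |((m : ℝ) + 1)⁻¹ * ∑ j ∈ Finset.range m, ∑ i ∈ Finset.range (j + 1), c i| ≤
      ∑ i ∈ Finset.range (m + 1), |c i| := by
    have hm : (0 : ℝ) < (m : ℝ) + 1 := by positivity
    rw [abs_mul, abs_of_pos (inv_pos.2 hm), inv_mul_le_iff₀ hm]
    nlinarith
  unfold al
  have h4 := abs_sub (∑ i ∈ Finset.range (j + 1), c i)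
    (((m : ℝ) + 1)⁻¹ * ∑ j ∈ Finset.range m, ∑ i ∈ Finset.range (j + 1), c i)
  have h5 := h1 j hj
  linarith

theorem part_bound (m : ℕ) (c : ℕ → ℝ) (v : ℕ → E) (hv : ∀ j ≤ m, ‖v j‖ = 1) (κ : ℕ)
    (hκ : κ ≤ m) (h : ℕ → ℝ) (h1 : ∀ j ≤ m, |h j| ≤ |al m c j|)
    (h2 : ∀ j, |h (j + 1) - h j| ≤ |al m c (j + 1) - al m c j|) :
    ‖∑ j ∈ Finset.range κ, h j • (v j - v (j + 1))‖ ≤
      5 * ∑ i ∈ Finset.range (m + 1), |c i| := by
  have e1 := abel_norm h v κ fun j hj => hv j (hj.trans hκ)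
  have e2 : ‖h κ • v κ‖ ≤ 2 * ∑ i ∈ Finset.range (m + 1), |c i| := by
    rw [norm_smul, hv κ hκ, mul_one, Real.norm_eq_abs]
    exact (h1 κ hκ).trans (al_bound m c κ hκ)
  have e3 : |h 0| ≤ 2 * ∑ i ∈ Finset.range (m + 1), |c i| :=
    (h1 0 (Nat.zero_le _)).trans (al_bound m c 0 (Nat.zero_le _))
  have e4 : ∑ j ∈ Finset.range κ, |h (j + 1) - h j| ≤ ∑ i ∈ Finset.range (m + 1), |c i| := by
    have e5 : ∑ j ∈ Finset.range κ, |h (j + 1) - h j| ≤ ∑ j ∈ Finset.range κ, |c (j + 1)| :=
      Finset.sum_le_sum fun j _ => by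
        have := h2 j
        rwa [al_succ] at this
    have e6 : ∑ j ∈ Finset.range κ, |c (j + 1)| ≤ ∑ i ∈ Finset.range (κ + 1), |c i| := by
      rw [Finset.sum_range_succ']
      linarith [abs_nonneg (c 0)]
    have e7 : ∑ i ∈ Finset.range (κ + 1), |c i| ≤ ∑ i ∈ Finset.range (m + 1), |c i| :=
      Finset.sum_le_sum_of_subset_of_nonneg (Finset.range_mono (by omega))
        fun _ _ _ => abs_nonneg _
    linarith
  have e8 := norm_sub_le (∑ j ∈ Finset.range κ, h j • (v j - v (j + 1)) + h κ • v κ) (h κ • v κ)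
  rw [add_sub_cancel_right] at e8
  linarith

theorem take_filter (p : ℕ → Bool) : ∀ (l : List ℕ) (k : ℕ), ∃ κ ≤ l.length,
    (l.filter p).take k = (l.take κ).filter p := by
  intro l
  induction l with
  | nil => intro k; exact ⟨0, le_rfl, by simp⟩
  | cons a l ih =>
    intro k
    by_cases h : p a = true
    · cases k with
      | zero => exact ⟨0, Nat.zero_le _, by simp⟩
      | succ k =>
        obtain ⟨κ, h1, h2⟩ := ih k
        refine ⟨κ + 1, by simpa using h1, ?_⟩
        rw [List.filter_cons_of_pos h, List.take_succ_cons, List.take_succ_cons,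
          List.filter_cons_of_pos h, h2]
    · obtain ⟨κ, h1, h2⟩ := ih k
      refine ⟨κ + 1, by simpa using h1, ?_⟩
      rw [List.filter_cons_of_neg h, List.take_succ_cons, List.filter_cons_of_neg h, h2]

theorem sum_filter_range {F : Type*} [AddCommMonoid F] (p : ℕ → Bool) (g : ℕ → F) (κ : ℕ) :
    (((List.range κ).filter p).map g).sum = ∑ j ∈ Finset.range κ, if p j then g j else 0 := by
  induction κ with
  | zero => simp
  | succ κ ih =>
    rw [List.range_succ, List.filter_append, List.map_append, List.sum_append, ih,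
      Finset.sum_range_succ]
    congr 1
    by_cases h : p κ = true <;> simp [h]

theorem split_val {F : Type*} [AddCommGroup F] [Module ℝ F] (a : ℕ → ℝ) (lk : List ℕ)
    (κ1 κ2 : ℕ) (hk1 : lk.Perm ((List.range κ1).filter (fun j => decide (0 ≤ a j)) ++
      (List.range κ2).filter (fun j => !decide (0 ≤ a j)))) (g : ℕ → F) :
    (lk.map fun j => a j • g j).sum = ∑ j ∈ Finset.range κ1, max (a j) 0 • g j -
      ∑ j ∈ Finset.range κ2, max (-a j) 0 • g j := by
  rw [(hk1.map _).sum_eq, List.map_append, List.sum_append, sum_filter_range,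
    sum_filter_range, sub_eq_add_neg, ← Finset.sum_neg_distrib]
  congr 1
  · refine Finset.sum_congr rfl fun j _ => ?_
    by_cases h : 0 ≤ a j
    · simp [h]
    · push Not at h
      simp [not_le.2 h, max_eq_right h.le]
  · refine Finset.sum_congr rfl fun j _ => ?_
    by_cases h : 0 ≤ a j
    · simp [h]
    · push Not at h
      have h' : 0 ≤ - a j := by linarith
      simp [not_le.2 h, max_eq_left h']

theorem goodlist (m : ℕ) (c : ℕ → ℝ) (v : ℕ → E) (hv : ∀ j ≤ m, ‖v j‖ = 1) :
    ∃ l : List ℕ, l.Perm (List.range (m + 1)) ∧ ∀ k,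
      ‖((l.take k).map fun j => al m c j • XX m v j).sum‖ ≤
        15 * ∑ i ∈ Finset.range (m + 1), |c i| := by
  classical
  obtain ⟨L, hL⟩ : ∃ L, L = ∑ i ∈ Finset.range (m + 1), |c i| := ⟨_, rfl⟩
  have hL0 : 0 ≤ L := by rw [hL]; exact Finset.sum_nonneg fun _ _ => abs_nonneg _
  have hab : ∀ j ≤ m, |al m c j| ≤ 2 * L := fun j hj => by rw [hL]; exact al_bound m c j hj
  have hc0 : |c 0| ≤ L := by
    rw [hL]
    exact Finset.single_le_sum (f := fun i => |c i|) (fun _ _ => abs_nonneg _)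
      (Finset.mem_range.2 (Nat.succ_pos m))
  set p : ℕ → Bool := fun j => decide (0 ≤ al m c j) with hp
  have hperm := List.filter_append_perm p (List.range m)
  have htot : ((List.range m).map (al m c)).sum = c 0 - al m c 0 := by
    have h1 := al_sum m c
    have h2 : ((List.range m).map (al m c)).sum = ∑ j ∈ Finset.range m, al m c j := by
      have := sum_filter_range (fun _ => true) (al m c) m
      simpa using this
    rw [h2]
    linarith
  obtain ⟨l, hl, hk⟩ := merge (al m c) (3 * L) _ ((List.range m).filter p)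
    ((List.range m).filter (fun j => !p j)) rfl
    (fun j hj => by
      rw [List.mem_filter, List.mem_range] at hj
      have h3 := hab j hj.1.le
      rw [abs_le] at h3
      exact ⟨of_decide_eq_true hj.2, by linarith⟩)
    (fun j hj => by
      rw [List.mem_filter, List.mem_range] at hj
      have h3 := hab j hj.1.le
      rw [abs_le] at h3
      have h4 : ¬ 0 ≤ al m c j := by simpa [hp] using hj.2
      push Not at h4
      exact ⟨h4.le, by linarith⟩) 0 (by simpa using hL0) (by
        rw [zero_add, ← List.sum_append, ← List.map_append, (hperm.map _).sum_eq, htot]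
        have h5 := abs_sub (c 0) (al m c 0)
        have h6 := hab 0 (Nat.zero_le _)
        linarith)
  have hl' : l.Perm (List.range m) := hl.trans hperm
  refine ⟨l ++ [m], ?_, fun k => ?_⟩
  · rw [List.range_succ]
    exact hl'.append_right [m]
  rw [← hL, List.take_append, List.map_append, List.sum_append]
  have hlast : ‖((([m] : List ℕ).take (k - l.length)).map fun j => al m c j • XX m v j).sum‖ ≤
      2 * L := by
    rcases Nat.eq_zero_or_pos (k - l.length) with h0 | h0
    · rw [h0]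
      simpa using hL0
    · rw [List.take_of_length_le (show ([m] : List ℕ).length ≤ k - l.length from h0)]
      simp only [List.map_cons, List.map_nil, List.sum_cons, List.sum_nil, add_zero]
      rw [norm_smul, XX, if_neg (lt_irrefl m), hv m le_rfl, mul_one, Real.norm_eq_abs]
      exact hab m le_rfl
  obtain ⟨k1, k2, hk1, hk2⟩ := hk k
  obtain ⟨κ1, hκ1, hκ1'⟩ := take_filter p (List.range m) k1
  obtain ⟨κ2, hκ2, hκ2'⟩ := take_filter (fun j => !p j) (List.range m) k2
  rw [List.length_range] at hκ1 hκ2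
  rw [hκ1', hκ2', List.take_range, List.take_range, min_eq_left hκ1, min_eq_left hκ2] at hk1
  have hs := split_val (al m c) _ κ1 κ2 hk1 (fun _ => (1 : ℝ))
  simp only [smul_eq_mul, mul_one] at hs
  rw [zero_add, hs] at hk2
  rw [split_val (al m c) _ κ1 κ2 hk1 (XX m v)]
  have g1 : ∀ (κ : ℕ), κ ≤ m → ∀ h : ℕ → ℝ, ∑ j ∈ Finset.range κ, h j • XX m v j =
      (∑ j ∈ Finset.range κ, h j) • v 0 + ∑ j ∈ Finset.range κ, h j • (v j - v (j + 1)) := by
    intro κ hκ h
    rw [Finset.sum_smul, ← Finset.sum_add_distrib]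
    refine Finset.sum_congr rfl fun j hj => ?_
    rw [XX, if_pos (lt_of_lt_of_le (Finset.mem_range.1 hj) hκ), smul_add]
  rw [g1 κ1 hκ1, g1 κ2 hκ2]
  have b1 := part_bound m c v hv κ1 hκ1 (fun j => max (al m c j) 0)
    (fun j _ => by
      rcases le_total 0 (al m c j) with h | h
      · rw [max_eq_left h]
      · rw [max_eq_right h, abs_zero]; exact abs_nonneg _)
    (fun j => abs_max_sub_max_le_abs _ _ _)
  have b2 := part_bound m c v hv κ2 hκ2 (fun j => max (-al m c j) 0)
    (fun j _ => by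
      rcases le_total 0 (-al m c j) with h | h
      · rw [max_eq_left h, abs_neg]
      · rw [max_eq_right h, abs_zero]; exact abs_nonneg _)
    (fun j => by
      refine (abs_max_sub_max_le_abs _ _ _).trans (le_of_eq ?_)
      rw [← abs_neg]
      congr 1
      ring)
  rw [← hL] at b1 b2
  have b3 : ‖(∑ j ∈ Finset.range κ1, max (al m c j) 0 -
      ∑ j ∈ Finset.range κ2, max (-al m c j) 0) • v 0‖ ≤ 3 * L := by
    rw [norm_smul, hv 0 (Nat.zero_le _), mul_one, Real.norm_eq_abs]
    exact hk2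
  have b4 : (∑ j ∈ Finset.range κ1, max (al m c j) 0) • v 0 +
      ∑ j ∈ Finset.range κ1, max (al m c j) 0 • (v j - v (j + 1)) -
      ((∑ j ∈ Finset.range κ2, max (-al m c j) 0) • v 0 +
      ∑ j ∈ Finset.range κ2, max (-al m c j) 0 • (v j - v (j + 1))) =
      (∑ j ∈ Finset.range κ1, max (al m c j) 0 -
      ∑ j ∈ Finset.range κ2, max (-al m c j) 0) • v 0 +
      (∑ j ∈ Finset.range κ1, max (al m c j) 0 • (v j - v (j + 1)) -
      ∑ j ∈ Finset.range κ2, max (-al m c j) 0 • (v j - v (j + 1))) := by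
    rw [sub_smul]
    abel
  rw [b4]
  have c1 := norm_add_le ((∑ j ∈ Finset.range κ1, max (al m c j) 0 -
      ∑ j ∈ Finset.range κ2, max (-al m c j) 0) • v 0)
      (∑ j ∈ Finset.range κ1, max (al m c j) 0 • (v j - v (j + 1)) -
      ∑ j ∈ Finset.range κ2, max (-al m c j) 0 • (v j - v (j + 1)))
  have c2 := norm_sub_le (∑ j ∈ Finset.range κ1, max (al m c j) 0 • (v j - v (j + 1)))
      (∑ j ∈ Finset.range κ2, max (-al m c j) 0 • (v j - v (j + 1)))
  refine (norm_add_le _ _).trans ?_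
  linarith

end Pool.Agent.H61.PB
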