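import Pool.Agent.H61.PB.La

/-!
# The `ℓ₁` system
-/

namespace Pool.Agent.H61.PB

open Filter Topology

variable {E : Type*} [NormedAddCommGroup E] [NormedSpace ℝ E]

theorem al_congr (m : ℕ) (c c' : ℕ → ℝ) (h : ∀ i ≤ m, c i = c' i) (j : ℕ) (hj : j ≤ m) :
    al m c j = al m c' j := by
  unfold al
  congr 1
  · exact Finset.sum_congr rfl fun i hi => h i (by rw [Finset.mem_range] at hi; omega)
  · congr 1
    refine Finset.sum_congr rfl fun k hk => Finset.sum_congr rfl fun i hi => h i ?_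
    rw [Finset.mem_range] at hi hk
    omega

theorem al_zero (m : ℕ) (j : ℕ) : al m (fun _ => 0) j = 0 := by
  simp [al]

theorem al_unique (m : ℕ) (c a : ℕ → ℝ) (h1 : ∀ j < m, a (j + 1) - a j = c (j + 1))
    (h2 : ∑ j ∈ Finset.range m, a j + a 0 = c 0) (j : ℕ) (hj : j ≤ m) : al m c j = a j := by
  have hd : ∀ j ≤ m, al m c j - a j = al m c 0 - a 0 := by
    intro j
    induction j with
    | zero => intro _; rfl
    | succ j ih =>
      intro hj
      have e1 := ih (by omega)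
      have e2 := h1 j (by omega)
      have e3 := al_succ m c j
      linarith
  have h3 : ∑ j ∈ Finset.range m, (al m c j - a j) = m * (al m c 0 - a 0) := by
    rw [Finset.sum_congr rfl fun j hj => hd j (Finset.mem_range.1 hj).le, Finset.sum_const,
      Finset.card_range, nsmul_eq_mul]
  rw [Finset.sum_sub_distrib] at h3
  have h4 := al_sum m c
  have h5 : ((m : ℝ) + 1) * (al m c 0 - a 0) = 0 := by linarith
  have h6 : al m c 0 - a 0 = 0 := by
    rcases mul_eq_zero.1 h5 with h | h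
    · have : (0 : ℝ) < (m : ℝ) + 1 := by positivity
      linarith
    · exact h
  have := hd j hj
  linarith

theorem al_delta (m i : ℕ) (hi : i ≤ m) (j : ℕ) (hj : j ≤ m) :
    al m (fun a => if i < m then (if a = 0 then 1 else 0) +
      ((if a = i then 1 else 0) - (if a = i + 1 then 1 else 0)) else (if a = i then 1 else 0)) j =
      if j = i then 1 else 0 := by
  refine al_unique m _ (fun j => if j = i then 1 else 0) (fun j hj => ?_) ?_ j hj
  · by_cases h : i < m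
    · simp only [h, if_true, Nat.add_eq_zero_iff, one_ne_zero, and_false, if_false, zero_add,
        Nat.add_right_cancel_iff]
    · have h1 : j ≠ i := by omega
      simp only [h, h1, if_false, sub_zero]
  · by_cases h : i < m
    · simp only [h, if_true]
      rw [Finset.sum_ite_eq', if_pos (Finset.mem_range.2 h)]
      simp
    · simp only [h, if_false]
      rw [Finset.sum_ite_eq', if_neg (by rw [Finset.mem_range]; exact h), zero_add]

/-- The new functionals. -/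
noncomputable def GG (m : ℕ) (f : ℕ → E →L[ℝ] ℝ) (j : ℕ) : E →L[ℝ] ℝ :=
  ∑ i ∈ Finset.range (j + 1), f i -
    ((m : ℝ) + 1)⁻¹ • ∑ j ∈ Finset.range m, ∑ i ∈ Finset.range (j + 1), f i

theorem GG_apply (m : ℕ) (f : ℕ → E →L[ℝ] ℝ) (j : ℕ) (y : E) :
    GG m f j y = al m (fun i => f i y) j := by
  simp [GG, al]

structure LData (e : ℕ → E) (f : ℕ → E →L[ℝ] ℝ) where
  u : ℕ → ℕ
  m : ℕ → ℕ
  b : ℕ → ℕ
  blk : ℕ → ℕ
  K : ℝ
  K₂ : ℝ
  c₀ : ℝ
  hu : StrictMono u
  hb : StrictMono b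
  hb0 : b 0 = 0
  hb1 : ∀ k, b (k + 1) = u (b k + m k) + 1
  hblk : ∀ n, b (blk n) ≤ n ∧ n < b (blk n + 1)
  hof : ∀ i j, f i (e j) = if i = j then 1 else 0
  hK0 : 0 ≤ K
  hK : ∀ T : Finset ℕ, (T : Set ℕ) ⊆ Set.range u → ∀ y, ‖∑ i ∈ T, f i y • e i‖ ≤ K * ‖y‖
  hK2 : ∀ N y, ‖∑ i ∈ Finset.range N, f i y • e i‖ ≤ K₂ * ‖y‖
  hn : ∀ n, ‖e (u n)‖ = 1
  hc₀ : 0 < c₀
  hell : ∀ T : Finset ℕ, (T : Set ℕ) ⊆ Set.range u → ∀ s : ℕ → ℝ,
    c₀ * ∑ j ∈ T, ‖s j‖ ≤ ‖∑ j ∈ T, s j • e j‖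

namespace LData

variable {e : ℕ → E} {f : ℕ → E →L[ℝ] ℝ} (D : LData e f)

/-- The special indices of a block. -/
def ix (k j : ℕ) : ℕ := D.u (D.b k + j)

noncomputable def rk (n : ℕ) : ℕ := Function.invFun D.u n - D.b (D.blk n)

def sp (n : ℕ) : Prop := n = D.ix (D.blk n) (D.rk n) ∧ D.rk n ≤ D.m (D.blk n)

open Classical in
noncomputable def x (n : ℕ) : E :=
  if D.sp n then XX (D.m (D.blk n)) (fun j => e (D.ix (D.blk n) j)) (D.rk n) else e n

open Classical in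
noncomputable def F (n : ℕ) : E →L[ℝ] ℝ :=
  if D.sp n then GG (D.m (D.blk n)) (fun j => f (D.ix (D.blk n) j)) (D.rk n) else f n

theorem ix_mem (k j : ℕ) (hj : j ≤ D.m k) : D.ix k j ∈ Finset.Ico (D.b k) (D.b (k + 1)) := by
  rw [Finset.mem_Ico, D.hb1]
  have h1 := D.hu.le_apply (x := D.b k + j)
  have h2 : D.u (D.b k + j) ≤ D.u (D.b k + D.m k) := D.hu.monotone (by omega)
  unfold ix
  omega

theorem ix_blk (k j : ℕ) (hj : j ≤ D.m k) : D.blk (D.ix k j) = k := by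
  have h := Finset.mem_Ico.1 (D.ix_mem k j hj)
  exact blk_unique D.hb (D.hblk _).1 (D.hblk _).2 h.1 h.2

theorem ix_inj (k : ℕ) {i j : ℕ} (h : D.ix k i = D.ix k j) : i = j := by
  have := D.hu.injective h
  omega

theorem ix_rk (k j : ℕ) (hj : j ≤ D.m k) : D.rk (D.ix k j) = j := by
  unfold rk
  rw [D.ix_blk k j hj]
  unfold ix
  rw [Function.leftInverse_invFun D.hu.injective]
  omega

theorem ix_sp (k j : ℕ) (hj : j ≤ D.m k) : D.sp (D.ix k j) := by
  unfold sp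
  rw [D.ix_blk k j hj, D.ix_rk k j hj]
  exact ⟨rfl, hj⟩

theorem x_ix (k j : ℕ) (hj : j ≤ D.m k) :
    D.x (D.ix k j) = XX (D.m k) (fun j => e (D.ix k j)) j := by
  unfold x
  rw [if_pos (D.ix_sp k j hj), D.ix_blk k j hj, D.ix_rk k j hj]

theorem F_ix (k j : ℕ) (hj : j ≤ D.m k) :
    D.F (D.ix k j) = GG (D.m k) (fun j => f (D.ix k j)) j := by
  unfold F
  rw [if_pos (D.ix_sp k j hj), D.ix_blk k j hj, D.ix_rk k j hj]

theorem cases (n : ℕ) : (∃ k j, j ≤ D.m k ∧ n = D.ix k j) ∨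
    (D.x n = e n ∧ D.F n = f n ∧ ∀ k j, j ≤ D.m k → n ≠ D.ix k j) := by
  by_cases h : D.sp n
  · exact Or.inl ⟨_, _, h.2, h.1⟩
  · refine Or.inr ⟨by unfold x; rw [if_neg h], by unfold F; rw [if_neg h], ?_⟩
    rintro k j hj rfl
    exact h (D.ix_sp k j hj)

theorem f_XX (n k j : ℕ) : f n (XX (D.m k) (fun j => e (D.ix k j)) j) =
    if j < D.m k then (if n = D.ix k 0 then 1 else 0) + ((if n = D.ix k j then 1 else 0) -
      (if n = D.ix k (j + 1) then 1 else 0)) else (if n = D.ix k j then 1 else 0) := by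
  unfold XX
  split_ifs <;> simp_all [D.hof]

theorem f_XX_zero (n k j : ℕ) (hj : j ≤ D.m k) (h0 : ∀ i ≤ D.m k, n ≠ D.ix k i) :
    f n (XX (D.m k) (fun j => e (D.ix k j)) j) = 0 := by
  rw [D.f_XX, if_neg (h0 j hj), if_neg (h0 0 (Nat.zero_le _))]
  split_ifs with g1 g2
  · exact absurd g2 (h0 _ g1)
  · simp
  · rfl

theorem bio (i n : ℕ) : D.F i (D.x n) = if i = n then 1 else 0 := by
  rcases D.cases i with ⟨k, j, hj, rfl⟩ | ⟨h1, h2, h3⟩
  · rw [D.F_ix k j hj, GG_apply]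
    rcases D.cases n with ⟨k', j', hj', rfl⟩ | ⟨h4, h5, h6⟩
    · rw [D.x_ix k' j' hj']
      by_cases hk : k = k'
      · subst hk
        have h0 : ∀ i j, (D.ix k i = D.ix k j) ↔ (i = j) := fun i j =>
          ⟨D.ix_inj k, fun h => by rw [h]⟩
        simp only [h0]
        rw [← al_delta (D.m k) j' hj' j hj]
        refine al_congr _ _ _ (fun a _ => ?_) j hj
        rw [D.f_XX]
        simp only [h0]
      · rw [if_neg (fun h => hk (by rw [← D.ix_blk k j hj, h, D.ix_blk k' j' hj'])),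
          ← al_zero (D.m k) j]
        refine al_congr _ _ _ (fun a ha => ?_) j hj
        exact D.f_XX_zero _ _ _ hj' fun i hi h => hk (by
          rw [← D.ix_blk k a ha, h, D.ix_blk k' i hi])
    · rw [h4, if_neg (fun h => h6 k j hj h.symm), ← al_zero (D.m k) j]
      refine al_congr _ _ _ (fun a ha => ?_) j hj
      rw [D.hof, if_neg (fun h => h6 k a ha h.symm)]
  · rw [h2]
    rcases D.cases n with ⟨k', j', hj', rfl⟩ | ⟨h4, h5, h6⟩
    · rw [D.x_ix k' j' hj', D.f_XX_zero _ _ _ hj' (h3 k'), if_neg (h3 k' j' hj')]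
    · rw [h4, D.hof]

theorem loc (k i : ℕ) (hi : i ∈ Finset.Ico (D.b k) (D.b (k + 1))) (y z : E)
    (h : ∀ n ∈ Finset.Ico (D.b k) (D.b (k + 1)), f n y = f n z) : D.F i y = D.F i z := by
  rcases D.cases i with ⟨k', j, hj, rfl⟩ | ⟨h1, h2, h3⟩
  · have hk : k' = k := by
      have h1 := Finset.mem_Ico.1 (D.ix_mem k' j hj)
      have h2 := Finset.mem_Ico.1 hi
      exact blk_unique D.hb h1.1 h1.2 h2.1 h2.2
    subst hk
    rw [D.F_ix k' j hj, GG_apply, GG_apply]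
    exact al_congr _ _ _ (fun a ha => h _ (D.ix_mem k' a ha)) j hj
  · rw [h2]
    exact h i hi

/-- The set of the special indices of block `k`. -/
noncomputable def A (k : ℕ) : Finset ℕ := (Finset.range (D.m k + 1)).image (D.ix k)

theorem sum_A {F : Type*} [AddCommMonoid F] (k : ℕ) (g : ℕ → F) :
    ∑ n ∈ D.A k, g n = ∑ j ∈ Finset.range (D.m k + 1), g (D.ix k j) := by
  unfold A
  rw [Finset.sum_image fun i _ j _ h => D.ix_inj k h]

theorem A_sub (k : ℕ) : (D.A k : Set ℕ) ⊆ Set.range D.u := by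
  intro n hn
  unfold A at hn
  rw [Finset.coe_image] at hn
  obtain ⟨j, _, rfl⟩ := hn
  exact ⟨_, rfl⟩

theorem L_bound (k : ℕ) (y : E) :
    ∑ i ∈ Finset.range (D.m k + 1), |f (D.ix k i) y| ≤ D.K / D.c₀ * ‖y‖ := by
  have h1 := D.hell (D.A k) (D.A_sub k) (fun n => f n y)
  have h2 := D.hK (D.A k) (D.A_sub k) y
  rw [D.sum_A k (fun n => ‖f n y‖)] at h1
  simp only [Real.norm_eq_abs] at h1
  rw [div_mul_eq_mul_div, le_div_iff₀ D.hc₀, mul_comm]
  exact h1.trans h2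

end LData

end Pool.Agent.H61.PB
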