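import Pool.Agent.H61.PB.Lb

namespace Pool.Agent.H61.PB

open Filter Topology

variable {E : Type*} [NormedAddCommGroup E] [NormedSpace ℝ E]

namespace LData

variable {e : ℕ → E} {f : ℕ → E →L[ℝ] ℝ} (D : LData e f)

theorem ord (k : ℕ) (y : E) : ∃ p : Equiv.Perm ℕ,
    (∀ i ∉ Finset.Ico (D.b k) (D.b (k + 1)), p i = i) ∧
    (∀ N, D.b k ≤ N → N ≤ D.b (k + 1) →
      ‖∑ i ∈ Finset.Ico (D.b k) N, D.F (p i) y • D.x (p i)‖ ≤
        (2 * D.K₂ + 15 * (D.K / D.c₀) + D.K) * ‖y‖) ∧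
    ∑ i ∈ Finset.Ico (D.b k) (D.b (k + 1)), D.F (p i) y • D.x (p i) =
      ∑ i ∈ Finset.Ico (D.b k) (D.b (k + 1)), f i y • e i := by
  classical
  obtain ⟨l, hl, hl2⟩ := goodlist (D.m k) (fun a => f (D.ix k a) y)
    (fun a => e (D.ix k a)) (fun j _ => D.hn _)
  obtain ⟨p, hp1, hp2⟩ := perm_of_list (F := E) _ (D.A k) (l.map (D.ix k)) rfl
    ((hl.nodup_iff.2 List.nodup_range).map fun i j h => D.ix_inj k h)
    (fun x => by
      unfold A
      simp only [List.mem_map, hl.mem_iff, List.mem_range, Finset.mem_image, Finset.mem_range])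
  have hAb : ∀ i ∈ D.A k, i ∈ Finset.Ico (D.b k) (D.b (k + 1)) := by
    intro i hi
    unfold A at hi
    rw [Finset.mem_image] at hi
    obtain ⟨j, hj, rfl⟩ := hi
    rw [Finset.mem_range] at hj
    exact D.ix_mem k j (by omega)
  have hG : ∀ κ, (((l.map (D.ix k)).take κ).map fun n => D.F n y • D.x n).sum =
      ((l.take κ).map fun j => al (D.m k) (fun a => f (D.ix k a) y) j •
        XX (D.m k) (fun a => e (D.ix k a)) j).sum := by
    intro κ
    rw [← List.map_take, List.map_map]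
    congr 1
    refine List.map_congr_left fun j hj => ?_
    have hj' : j ≤ D.m k := by
      have := hl.mem_iff.1 (List.mem_of_mem_take hj)
      rw [List.mem_range] at this
      omega
    simp only [Function.comp]
    rw [D.F_ix k j hj', D.x_ix k j hj', GG_apply]
  have hns : ∀ i ∈ Finset.Ico (D.b k) (D.b (k + 1)), i ∉ D.A k →
      D.F i y • D.x i = f i y • e i := by
    intro i hi hiA
    rcases D.cases i with ⟨k', j, hj, rfl⟩ | ⟨h1, h2, _⟩
    · exfalso
      apply hiA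
      have hk : k' = k := by
        have h1 := Finset.mem_Ico.1 (D.ix_mem k' j hj)
        have h2 := Finset.mem_Ico.1 hi
        exact blk_unique D.hb h1.1 h1.2 h2.1 h2.2
      subst hk
      exact Finset.mem_image.2 ⟨j, Finset.mem_range.2 (by omega), rfl⟩
    · rw [h1, h2]
  have hpart : ∀ N, D.b k ≤ N → N ≤ D.b (k + 1) →
      ∑ i ∈ Finset.Ico (D.b k) N, D.F (p i) y • D.x (p i) =
        ∑ i ∈ Finset.Ico (D.b k) N, f i y • e i +
        (∑ i ∈ (D.A k).filter (fun i => i < N), D.F (p i) y • D.x (p i) -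
          ∑ i ∈ (D.A k).filter (fun i => i < N), f i y • e i) := by
    intro N h1 h2
    have h3 : (Finset.Ico (D.b k) N).filter (fun i => i ∈ D.A k) =
        (D.A k).filter (fun i => i < N) := by
      ext i
      simp only [Finset.mem_filter, Finset.mem_Ico]
      constructor
      · rintro ⟨⟨_, h2⟩, h3⟩
        exact ⟨h3, h2⟩
      · rintro ⟨h3, h2⟩
        exact ⟨⟨(Finset.mem_Ico.1 (hAb i h3)).1, h2⟩, h3⟩
    rw [← h3, ← Finset.sum_filter_add_sum_filter_not (Finset.Ico (D.b k) N)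
      (fun i => i ∈ D.A k) (fun i => D.F (p i) y • D.x (p i)),
      ← Finset.sum_filter_add_sum_filter_not (Finset.Ico (D.b k) N)
      (fun i => i ∈ D.A k) (fun i => f i y • e i)]
    have e2 : ∑ i ∈ (Finset.Ico (D.b k) N).filter (fun i => i ∉ D.A k),
        D.F (p i) y • D.x (p i) =
        ∑ i ∈ (Finset.Ico (D.b k) N).filter (fun i => i ∉ D.A k), f i y • e i := by
      refine Finset.sum_congr rfl fun i hi => ?_
      rw [Finset.mem_filter, Finset.mem_Ico] at hi
      rw [hp1 i hi.2]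
      exact hns i (Finset.mem_Ico.2 ⟨hi.1.1, by omega⟩) hi.2
    rw [e2]
    abel
  refine ⟨p, fun i hi => hp1 i fun h => hi (hAb i h), fun N h1 h2 => ?_, ?_⟩
  · rw [hpart N h1 h2]
    obtain ⟨κ, hκ⟩ := hp2 N
    rw [hκ (fun n => D.F n y • D.x n), hG κ]
    have b1 : ‖∑ i ∈ Finset.Ico (D.b k) N, f i y • e i‖ ≤ 2 * D.K₂ * ‖y‖ := by
      rw [Finset.sum_Ico_eq_sub _ h1]
      refine (norm_sub_le _ _).trans ?_
      have h1 := D.hK2 N y
      have h2 := D.hK2 (D.b k) y
      linarith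
    have b2 : ‖∑ i ∈ (D.A k).filter (fun i => i < N), f i y • e i‖ ≤ D.K * ‖y‖ :=
      D.hK _ (fun i hi => D.A_sub k (Finset.mem_coe.2 (Finset.filter_subset _ _
        (Finset.mem_coe.1 hi)))) y
    have b3 := hl2 κ
    have b4 := D.L_bound k y
    have b5 := norm_add_le (∑ i ∈ Finset.Ico (D.b k) N, f i y • e i)
      (((l.take κ).map fun j => al (D.m k) (fun a => f (D.ix k a) y) j •
        XX (D.m k) (fun a => e (D.ix k a)) j).sum -
        ∑ i ∈ (D.A k).filter (fun i => i < N), f i y • e i)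
    have b6 := norm_sub_le (((l.take κ).map fun j => al (D.m k) (fun a => f (D.ix k a) y) j •
        XX (D.m k) (fun a => e (D.ix k a)) j).sum)
        (∑ i ∈ (D.A k).filter (fun i => i < N), f i y • e i)
    linarith
  · rw [hpart _ (D.hb.monotone (Nat.le_succ k)) le_rfl]
    have h3 : (D.A k).filter (fun i => i < D.b (k + 1)) = D.A k :=
      Finset.filter_true_of_mem fun i hi => (Finset.mem_Ico.1 (hAb i hi)).2
    rw [h3, sum_perm_all (D.A k) p hp1 (fun n => D.F n y • D.x n), D.sum_A k, D.sum_A k]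
    have h4 : ∑ j ∈ Finset.range (D.m k + 1), D.F (D.ix k j) y • D.x (D.ix k j) =
        ∑ j ∈ Finset.range (D.m k + 1), f (D.ix k j) y • e (D.ix k j) := by
      have h5 := XX_sum (D.m k) (fun a => f (D.ix k a) y) (fun a => e (D.ix k a))
      rw [← h5]
      refine Finset.sum_congr rfl fun j hj => ?_
      rw [Finset.mem_range] at hj
      rw [D.F_ix k j (by omega), D.x_ix k j (by omega), GG_apply]
    rw [h4, sub_self, add_zero]

theorem norm_XX (k j : ℕ) : ‖XX (D.m k) (fun a => e (D.ix k a)) j‖ ≤ 3 := by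
  unfold XX
  split_ifs
  · have h1 := norm_add_le (e (D.ix k 0)) (e (D.ix k j) - e (D.ix k (j + 1)))
    have h2 := norm_sub_le (e (D.ix k j)) (e (D.ix k (j + 1)))
    have h3 : ∀ a, ‖e (D.ix k a)‖ = 1 := fun a => D.hn _
    rw [h3, h3] at h2
    rw [h3] at h1
    linarith
  · have h3 : ‖e (D.ix k j)‖ = 1 := D.hn _
    rw [h3]
    norm_num

theorem ubd : ∃ M : ℝ, ∀ n y, ‖D.F n y‖ * ‖D.x n‖ ≤ M * ‖y‖ := by
  refine ⟨6 * (D.K / D.c₀) + 2 * D.K₂, fun n y => ?_⟩
  have hK0 : 0 ≤ D.K / D.c₀ * ‖y‖ :=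
    mul_nonneg (div_nonneg D.hK0 D.hc₀.le) (norm_nonneg _)
  have hK20 : 0 ≤ D.K₂ * ‖y‖ := by
    have := D.hK2 0 y
    rwa [Finset.range_zero, Finset.sum_empty, norm_zero] at this
  rcases D.cases n with ⟨k, j, hj, rfl⟩ | ⟨h1, h2, _⟩
  · rw [D.F_ix k j hj, D.x_ix k j hj, GG_apply, Real.norm_eq_abs]
    have h1 := al_bound (D.m k) (fun a => f (D.ix k a) y) j hj
    have h2 := D.L_bound k y
    have h3 := D.norm_XX k j
    have h4 : |al (D.m k) (fun a => f (D.ix k a) y) j| ≤ 2 * (D.K / D.c₀ * ‖y‖) := by linarith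
    have h5 := mul_le_mul h4 h3 (norm_nonneg _) (by linarith)
    linarith
  · rw [h1, h2, ← norm_smul]
    have h3 := Finset.sum_range_succ (fun i => f i y • e i) n
    have h4 : f n y • e n = ∑ i ∈ Finset.range (n + 1), f i y • e i -
        ∑ i ∈ Finset.range n, f i y • e i := by rw [h3]; abel
    rw [h4]
    have h5 := norm_sub_le (∑ i ∈ Finset.range (n + 1), f i y • e i)
      (∑ i ∈ Finset.range n, f i y • e i)
    have h6 := D.hK2 (n + 1) y
    have h7 := D.hK2 n y
    linarith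

/-- The system of new vectors. -/
noncomputable def toSys : Sys e f where
  b := D.b
  blk := D.blk
  x := D.x
  F := D.F
  C := 2 * D.K₂ + 15 * (D.K / D.c₀) + D.K
  hb := D.hb
  hb0 := D.hb0
  hblk := D.hblk
  hof := D.hof
  bio := D.bio
  loc := D.loc
  ord := D.ord
  ubd := D.ubd

end LData

end Pool.Agent.H61.PB
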