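import Pool.Agent.H61.PB.Lc

namespace Pool.Agent.H61.PB

open Filter Topology

variable {E : Type*} [NormedAddCommGroup E] [NormedSpace ℝ E]

theorem tele (v : ℕ → E) (p q : ℕ) (h : p ≤ q) :
    ∑ j ∈ Finset.Ico p q, (v 0 + (v j - v (j + 1))) =
      ((q - p : ℕ) : ℝ) • v 0 + (v p - v q) := by
  induction q, h using Nat.le_induction with
  | base => simp
  | succ q hq ih =>
    rw [Finset.sum_Ico_succ_top hq, ih, show q + 1 - p = (q - p) + 1 by omega]
    push_cast
    rw [add_smul, one_smul]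
    abel

theorem ivt (P : ℕ → Prop) (p q : ℕ) (h1 : ∃ j, p ≤ j ∧ j < q ∧ P j)
    (h2 : ∃ j, p ≤ j ∧ j < q ∧ ¬ P j) : ∃ j, p ≤ j ∧ j + 1 < q ∧ ¬ (P j ↔ P (j + 1)) := by
  by_contra hc
  push Not at hc
  have key : ∀ n, p + n < q → (P (p + n) ↔ P p) := by
    intro n
    induction n with
    | zero => intro _; rfl
    | succ n ih =>
      intro hn
      have e1 := ih (by omega)
      have e2 := hc (p + n) (by omega) (by omega)
      rw [← e1]
      exact e2.symm
  obtain ⟨i, hi1, hi2, hi3⟩ := h1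
  obtain ⟨j, hj1, hj2, hj3⟩ := h2
  have e1 := key (i - p) (by omega)
  have e2 := key (j - p) (by omega)
  rw [show p + (i - p) = i by omega] at e1
  rw [show p + (j - p) = j by omega] at e2
  exact hj3 (e2.2 (e1.1 hi3))

theorem cell_uniq {l r r' j : ℕ} (h1 : r * l ≤ j) (h2 : j < (r + 1) * l) (h3 : r' * l ≤ j)
    (h4 : j < (r' + 1) * l) : r = r' := by
  rcases lt_trichotomy r r' with h | h | h
  · have := Nat.mul_le_mul_right l (show r + 1 ≤ r' from h)
    omega
  · exact h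
  · have := Nat.mul_le_mul_right l (show r' + 1 ≤ r from h)
    omega

namespace LData

variable {e : ℕ → E} {f : ℕ → E →L[ℝ] ℝ} (D : LData e f)

theorem hell' (k : ℕ) (d : ℕ → ℝ) : D.c₀ * ∑ i ∈ Finset.range (D.m k + 1), |d i| ≤
    ‖∑ i ∈ Finset.range (D.m k + 1), d i • e (D.ix k i)‖ := by
  have h1 := D.hell (D.A k) (D.A_sub k) (fun n => d (D.rk n))
  rw [D.sum_A k (fun n => ‖d (D.rk n)‖), D.sum_A k (fun n => d (D.rk n) • e n)] at h1
  have e1 : ∑ j ∈ Finset.range (D.m k + 1), ‖d (D.rk (D.ix k j))‖ =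
      ∑ i ∈ Finset.range (D.m k + 1), |d i| := by
    refine Finset.sum_congr rfl fun j hj => ?_
    rw [Finset.mem_range] at hj
    rw [D.ix_rk k j (by omega), Real.norm_eq_abs]
  have e2 : ∑ j ∈ Finset.range (D.m k + 1), d (D.rk (D.ix k j)) • e (D.ix k j) =
      ∑ i ∈ Finset.range (D.m k + 1), d i • e (D.ix k i) := by
    refine Finset.sum_congr rfl fun j hj => ?_
    rw [Finset.mem_range] at hj
    rw [D.ix_rk k j (by omega)]
  rwa [e1, e2] at h1

theorem block_bound [CompleteSpace E] (τ : ℕ ≃ ℕ) (hb : IsBasis ℝ (D.x ∘ τ)) :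
    ∃ C : ℝ, 0 ≤ C ∧ ∀ (k N : ℕ) (a : ℕ → ℝ),
      ‖∑ j ∈ Finset.range (D.m k), if τ.symm (D.ix k j) < N then
        a j • (e (D.ix k 0) + (e (D.ix k j) - e (D.ix k (j + 1)))) else 0‖ ≤
      C * ‖∑ j ∈ Finset.range (D.m k),
        a j • (e (D.ix k 0) + (e (D.ix k j) - e (D.ix k (j + 1))))‖ := by
  classical
  obtain ⟨C, hC0, hC⟩ := D.toSys.bound_of_basis τ hb
  refine ⟨C, hC0, fun k N a => ?_⟩
  have h1 := hC N ((Finset.range (D.m k)).image (D.ix k)) (fun n => a (D.rk n))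
  rw [Finset.sum_image fun i _ j _ h => D.ix_inj k h,
    Finset.sum_image fun i _ j _ h => D.ix_inj k h] at h1
  have hx : ∀ j ∈ Finset.range (D.m k), a (D.rk (D.ix k j)) • D.toSys.x (D.ix k j) =
      a j • (e (D.ix k 0) + (e (D.ix k j) - e (D.ix k (j + 1)))) := by
    intro j hj
    rw [Finset.mem_range] at hj
    change a (D.rk (D.ix k j)) • D.x (D.ix k j) = _
    rw [D.x_ix k j hj.le, D.ix_rk k j hj.le, XX, if_pos hj]
  have e1 : ∑ j ∈ Finset.range (D.m k), (if τ.symm (D.ix k j) < N then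
      a (D.rk (D.ix k j)) • D.toSys.x (D.ix k j) else 0) =
      ∑ j ∈ Finset.range (D.m k), if τ.symm (D.ix k j) < N then
        a j • (e (D.ix k 0) + (e (D.ix k j) - e (D.ix k (j + 1)))) else 0 := by
    refine Finset.sum_congr rfl fun j hj => ?_
    rw [hx j hj]
  rw [e1, Finset.sum_congr rfl hx] at h1
  exact h1

theorem not_basis [CompleteSpace E] (hm : ∀ k, D.m k = (2 * (k + 1)) * (k + 1)) (τ : ℕ ≃ ℕ) :
    ¬ IsBasis ℝ (D.x ∘ τ) := by
  classical
  intro hb
  obtain ⟨C, hC0, hC⟩ := D.block_bound τ hb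
  obtain ⟨k, hk⟩ := exists_nat_gt (4 * C + 1 + 4 * C / D.c₀)
  have hCc : 0 ≤ 4 * C / D.c₀ := div_nonneg (by linarith) D.hc₀.le
  have hk1 : 4 * C + 1 < k := by linarith
  have hk2 : 4 * C < D.c₀ * k := by
    have : 4 * C / D.c₀ < k := by linarith
    rw [div_lt_iff₀ D.hc₀] at this
    linarith
  obtain ⟨l, hl⟩ : ∃ l, l = k + 1 := ⟨_, rfl⟩
  obtain ⟨R, hR⟩ : ∃ R, R = 2 * (k + 1) := ⟨_, rfl⟩
  have hmk : D.m k = R * l := by rw [hm, hR, hl]
  have hl0 : 0 < l := by omega
  set v : ℕ → E := fun j => e (D.ix k j) with hv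
  have hv1 : ∀ j, ‖v j‖ = 1 := fun j => D.hn _
  have hC' : ∀ (N : ℕ) (a : ℕ → ℝ),
      ‖∑ j ∈ Finset.range (D.m k), if τ.symm (D.ix k j) < N then
        a j • (v 0 + (v j - v (j + 1))) else 0‖ ≤
      C * ‖∑ j ∈ Finset.range (D.m k), a j • (v 0 + (v j - v (j + 1)))‖ := hC k
  have h4 : ∀ p q p' q' : ℕ, ‖(v p - v q) - (v p' - v q')‖ ≤ 4 := by
    intro p q p' q'
    have e1 := norm_sub_le (v p - v q) (v p' - v q')
    have e2 := norm_sub_le (v p) (v q)
    have e3 := norm_sub_le (v p') (v q')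
    rw [hv1, hv1] at e2 e3
    linarith
  have hcell : ∀ r < R, (r + 1) * l ≤ D.m k := by
    intro r hr
    rw [hmk]
    exact Nat.mul_le_mul_right l hr
  have hlen : ∀ r : ℕ, (r + 1) * l - r * l = l := by
    intro r
    rw [add_mul, one_mul]
    omega
  have hle : ∀ r : ℕ, r * l ≤ (r + 1) * l := fun r => Nat.mul_le_mul_right l (Nat.le_succ r)
  -- first time a cell is full
  have hex : ∃ N, ∃ r < R, ∀ j, r * l ≤ j → j < (r + 1) * l → τ.symm (D.ix k j) < N := by
    refine ⟨(Finset.range l).sup (fun j => τ.symm (D.ix k j)) + 1, 0, by omega, ?_⟩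
    intro j _ h2
    have h3 : j ∈ Finset.range l := Finset.mem_range.2 (by simpa using h2)
    have := Finset.le_sup (f := fun j => τ.symm (D.ix k j)) h3
    exact Nat.lt_succ_of_le this
  obtain ⟨r₀, hr₀, hfull⟩ := Nat.find_spec hex
  have hmin : ∀ N < Nat.find hex,
      ¬ ∃ r < R, ∀ j, r * l ≤ j → j < (r + 1) * l → τ.symm (D.ix k j) < N :=
    fun N hN => Nat.find_min hex hN
  obtain ⟨N, hN⟩ : ∃ N, Nat.find hex = N + 1 := by
    refine ⟨Nat.find hex - 1, ?_⟩
    have h1 := hfull (r₀ * l) le_rfl (by rw [add_mul, one_mul]; omega)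
    omega
  rw [hN] at hfull hmin
  have hnot : ∀ r < R, r ≠ r₀ → ∃ j, r * l ≤ j ∧ j < (r + 1) * l ∧
      ¬ τ.symm (D.ix k j) < N + 1 := by
    intro r hr hrr
    by_contra hc
    push Not at hc
    have h0 := hmin N (Nat.lt_succ_self N)
    push Not at h0
    obtain ⟨j, hj1, hj2, hj3⟩ := h0 r hr
    obtain ⟨i, hi1, hi2, hi3⟩ := h0 r₀ hr₀
    have g1 := hc j hj1 hj2
    have g2 := hfull i hi1 hi2
    have g3 : τ.symm (D.ix k j) = τ.symm (D.ix k i) := by omega
    have g4 := D.ix_inj k (τ.symm.injective g3)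
    subst g4
    exact hrr (cell_uniq hj1 hj2 hi1 hi2)
  by_cases hcase : ∃ r₁ < R, ∀ j, r₁ * l ≤ j → j < (r₁ + 1) * l → ¬ τ.symm (D.ix k j) < N + 1
  · obtain ⟨r₁, hr₁, hemp⟩ := hcase
    have h1 := hC' (N + 1) (fun j => (if j ∈ Finset.Ico (r₀ * l) ((r₀ + 1) * l) then 1 else 0) -
      (if j ∈ Finset.Ico (r₁ * l) ((r₁ + 1) * l) then 1 else 0))
    have hsub : ∀ r < R, Finset.Ico (r * l) ((r + 1) * l) ⊆ Finset.range (D.m k) := by
      intro r hr j hj
      rw [Finset.mem_Ico] at hj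
      rw [Finset.mem_range]
      exact lt_of_lt_of_le hj.2 (hcell r hr)
    have e1 : ∑ j ∈ Finset.range (D.m k),
        (((if j ∈ Finset.Ico (r₀ * l) ((r₀ + 1) * l) then (1 : ℝ) else 0) -
        (if j ∈ Finset.Ico (r₁ * l) ((r₁ + 1) * l) then 1 else 0)) •
          (v 0 + (v j - v (j + 1)))) =
        (v (r₀ * l) - v ((r₀ + 1) * l)) - (v (r₁ * l) - v ((r₁ + 1) * l)) := by
      simp only [sub_smul, ite_smul, one_smul, zero_smul]
      rw [Finset.sum_sub_distrib, Finset.sum_ite_mem, Finset.sum_ite_mem,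
        Finset.inter_eq_right.2 (hsub r₀ hr₀), Finset.inter_eq_right.2 (hsub r₁ hr₁),
        tele v _ _ (hle r₀), tele v _ _ (hle r₁), hlen, hlen]
      abel
    have e2 : ∑ j ∈ Finset.range (D.m k), (if τ.symm (D.ix k j) < N + 1 then
        (((if j ∈ Finset.Ico (r₀ * l) ((r₀ + 1) * l) then (1 : ℝ) else 0) -
        (if j ∈ Finset.Ico (r₁ * l) ((r₁ + 1) * l) then 1 else 0)) •
          (v 0 + (v j - v (j + 1)))) else 0) =
        (l : ℝ) • v 0 + (v (r₀ * l) - v ((r₀ + 1) * l)) := by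
      have e3 : ∀ j ∈ Finset.range (D.m k), (if τ.symm (D.ix k j) < N + 1 then
        (((if j ∈ Finset.Ico (r₀ * l) ((r₀ + 1) * l) then (1 : ℝ) else 0) -
        (if j ∈ Finset.Ico (r₁ * l) ((r₁ + 1) * l) then 1 else 0)) •
          (v 0 + (v j - v (j + 1)))) else 0) =
          if j ∈ Finset.Ico (r₀ * l) ((r₀ + 1) * l) then v 0 + (v j - v (j + 1)) else 0 := by
        intro j _
        by_cases hT : τ.symm (D.ix k j) < N + 1
        · have hj1 : j ∉ Finset.Ico (r₁ * l) ((r₁ + 1) * l) := fun h => by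
            rw [Finset.mem_Ico] at h
            exact hemp j h.1 h.2 hT
          rw [if_pos hT, if_neg hj1, sub_zero, ite_smul, one_smul, zero_smul]
        · have hj0 : j ∉ Finset.Ico (r₀ * l) ((r₀ + 1) * l) := fun h => by
            rw [Finset.mem_Ico] at h
            exact hT (hfull j h.1 h.2)
          rw [if_neg hT, if_neg hj0]
      rw [Finset.sum_congr rfl e3, Finset.sum_ite_mem, Finset.inter_eq_right.2 (hsub r₀ hr₀),
        tele v _ _ (hle r₀), hlen]
    rw [e1, e2] at h1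
    have h2 := h4 (r₀ * l) ((r₀ + 1) * l) (r₁ * l) ((r₁ + 1) * l)
    have h3 : (l : ℝ) ≤ ‖(l : ℝ) • v 0 + (v (r₀ * l) - v ((r₀ + 1) * l))‖ + 2 := by
      have g1 := norm_sub_le ((l : ℝ) • v 0 + (v (r₀ * l) - v ((r₀ + 1) * l)))
        (v (r₀ * l) - v ((r₀ + 1) * l))
      rw [add_sub_cancel_right, norm_smul, hv1, mul_one, Real.norm_natCast] at g1
      have g2 := norm_sub_le (v (r₀ * l)) (v ((r₀ + 1) * l))
      rw [hv1, hv1] at g2
      linarith
    have h5 : (l : ℝ) = k + 1 := by rw [hl]; push_cast; ring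
    have h6 : C * ‖(v (r₀ * l) - v ((r₀ + 1) * l)) - (v (r₁ * l) - v ((r₁ + 1) * l))‖ ≤ C * 4 :=
      mul_le_mul_of_nonneg_left h2 hC0
    linarith
  · push Not at hcase
    obtain ⟨h, hh⟩ : ∃ h, h = (k + 1) * l := ⟨_, rfl⟩
    have hm2 : D.m k = h + h := by rw [hmk, hR, hh]; ring
    have h1 := hC' (N + 1) (fun j => if j < h then 1 else -1)
    have e1 : ∑ j ∈ Finset.range (D.m k), (if j < h then (1 : ℝ) else -1) •
        (v 0 + (v j - v (j + 1))) = (v 0 - v h) - (v h - v (D.m k)) := by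
      rw [Finset.range_eq_Ico, ← Finset.sum_Ico_consecutive _ (Nat.zero_le h)
        (show h ≤ D.m k by omega)]
      have g1 : ∑ j ∈ Finset.Ico 0 h, (if j < h then (1 : ℝ) else -1) •
          (v 0 + (v j - v (j + 1))) = ∑ j ∈ Finset.Ico 0 h, (v 0 + (v j - v (j + 1))) := by
        refine Finset.sum_congr rfl fun j hj => ?_
        rw [Finset.mem_Ico] at hj
        rw [if_pos hj.2, one_smul]
      have g2 : ∑ j ∈ Finset.Ico h (D.m k), (if j < h then (1 : ℝ) else -1) •
          (v 0 + (v j - v (j + 1))) = - ∑ j ∈ Finset.Ico h (D.m k),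
            (v 0 + (v j - v (j + 1))) := by
        rw [← Finset.sum_neg_distrib]
        refine Finset.sum_congr rfl fun j hj => ?_
        rw [Finset.mem_Ico] at hj
        rw [if_neg (by omega), neg_smul, one_smul]
      rw [g1, g2, tele v _ _ (Nat.zero_le h), tele v _ _ (show h ≤ D.m k by omega),
        show D.m k - h = h - 0 by omega]
      abel
    obtain ⟨H, hH⟩ : ∃ H : ℕ → ℝ, H = fun j => if j < D.m k ∧ τ.symm (D.ix k j) < N + 1 then
      (if j < h then 1 else -1) else 0 := ⟨_, rfl⟩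
    have hHm : H (D.m k) = 0 := by rw [hH]; simp
    obtain ⟨d, hd⟩ : ∃ d : ℕ → ℝ, d = fun i => Nat.casesOn i
      (∑ j ∈ Finset.range (D.m k), H j + H 0) (fun j => H (j + 1) - H j) := ⟨_, rfl⟩
    have hd0 : d 0 = ∑ j ∈ Finset.range (D.m k), H j + H 0 := by subst hd; rfl
    have hds : ∀ j, d (j + 1) = H (j + 1) - H j := fun j => by subst hd; rfl
    have e2 : ∑ j ∈ Finset.range (D.m k), (if τ.symm (D.ix k j) < N + 1 then
        (if j < h then (1 : ℝ) else -1) • (v 0 + (v j - v (j + 1))) else 0) =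
        ∑ i ∈ Finset.range (D.m k + 1), d i • v i := by
      have g1 : ∑ j ∈ Finset.range (D.m k), (if τ.symm (D.ix k j) < N + 1 then
          (if j < h then (1 : ℝ) else -1) • (v 0 + (v j - v (j + 1))) else 0) =
          ∑ j ∈ Finset.range (D.m k), (H j • v 0 + H j • (v j - v (j + 1))) := by
        refine Finset.sum_congr rfl fun j hj => ?_
        rw [Finset.mem_range] at hj
        rw [← smul_add, hH]
        by_cases hT : τ.symm (D.ix k j) < N + 1
        · simp only [hT, hj, if_true, and_self]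
        · simp only [hT, if_false, and_false, zero_smul]
      have g2 := abel_id H v (D.m k)
      rw [hHm, zero_smul, add_zero] at g2
      rw [g1, Finset.sum_add_distrib, ← Finset.sum_smul, g2, Finset.sum_range_succ']
      simp only [hds]
      rw [hd0, add_smul]
      abel
    rw [e1, e2] at h1
    have h2 : ‖(v 0 - v h) - (v h - v (D.m k))‖ ≤ 4 := h4 _ _ _ _
    have h3 := D.hell' k d
    have h5 : C * ‖(v 0 - v h) - (v h - v (D.m k))‖ ≤ C * 4 :=
      mul_le_mul_of_nonneg_left h2 hC0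
    -- many jumps
    have hj : ∀ r : ℕ, ∃ j, r < R → r ≠ r₀ → r * l ≤ j ∧ j + 1 < (r + 1) * l ∧
        ¬ (τ.symm (D.ix k j) < N + 1 ↔ τ.symm (D.ix k (j + 1)) < N + 1) := by
      intro r
      by_cases hr : r < R ∧ r ≠ r₀
      · obtain ⟨j, g1, g2, g3⟩ := ivt (fun j => τ.symm (D.ix k j) < N + 1) (r * l) ((r + 1) * l)
          (hcase r hr.1) (hnot r hr.1 hr.2)
        exact ⟨j, fun _ _ => ⟨g1, g2, g3⟩⟩
      · exact ⟨0, fun h1 h2 => absurd ⟨h1, h2⟩ hr⟩
    choose g hg using hj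
    have hinj : Set.InjOn g ((Finset.range R).erase r₀ : Finset ℕ) := by
      intro r hr r' hr' hrr
      rw [Finset.mem_coe, Finset.mem_erase, Finset.mem_range] at hr hr'
      have q1 := hg r hr.2 hr.1
      have q2 := hg r' hr'.2 hr'.1
      rw [← hrr] at q2
      exact cell_uniq q1.1 (by omega) q2.1 (by omega)
    have hjump : ∀ r ∈ (Finset.range R).erase r₀, |H (g r + 1) - H (g r)| = 1 := by
      intro r hr
      rw [Finset.mem_erase, Finset.mem_range] at hr
      obtain ⟨q1, q2, q3⟩ := hg r hr.2 hr.1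
      have q4 := hcell r hr.2
      have q5 : g r < D.m k := by omega
      have q6 : g r + 1 < D.m k := by omega
      have q7 : (g r < h) ↔ (g r + 1 < h) := by
        by_cases hrk : r < k + 1
        · have := Nat.mul_le_mul_right l (show r + 1 ≤ k + 1 from hrk)
          constructor <;> intro _ <;> omega
        · have := Nat.mul_le_mul_right l (show k + 1 ≤ r by omega)
          constructor <;> intro _ <;> omega
      rw [hH]
      simp only [q5, q6, true_and]
      by_cases s1 : τ.symm (D.ix k (g r)) < N + 1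
      · have s2 : ¬ τ.symm (D.ix k (g r + 1)) < N + 1 := fun s2 => q3 ⟨fun _ => s2, fun _ => s1⟩
        rw [if_pos s1, if_neg s2]
        split_ifs <;> norm_num
      · have s2 : τ.symm (D.ix k (g r + 1)) < N + 1 := by
          by_contra s2
          exact q3 ⟨fun s => absurd s s1, fun s => absurd s s2⟩
        rw [if_neg s1, if_pos s2]
        split_ifs <;> norm_num
    have hsum : (R : ℝ) - 1 ≤ ∑ i ∈ Finset.range (D.m k + 1), |d i| := by
      rw [Finset.sum_range_succ']
      simp only [hds]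
      rw [hd0]
      have t1 : ∑ j ∈ ((Finset.range R).erase r₀).image g, |H (j + 1) - H j| ≤
          ∑ j ∈ Finset.range (D.m k), |H (j + 1) - H j| := by
        refine Finset.sum_le_sum_of_subset_of_nonneg ?_ fun _ _ _ => abs_nonneg _
        intro j hj
        rw [Finset.mem_image] at hj
        obtain ⟨r, hr, rfl⟩ := hj
        rw [Finset.mem_erase, Finset.mem_range] at hr
        obtain ⟨q1, q2, q3⟩ := hg r hr.2 hr.1
        have q4 := hcell r hr.2
        rw [Finset.mem_range]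
        omega
      rw [Finset.sum_image hinj, Finset.sum_congr rfl hjump, Finset.sum_const,
        Finset.card_erase_of_mem (Finset.mem_range.2 hr₀), Finset.card_range, nsmul_eq_mul,
        mul_one, Nat.cast_sub (by omega), Nat.cast_one] at t1
      have t2 := abs_nonneg (∑ j ∈ Finset.range (D.m k), H j + H 0)
      linarith
    have hRR : (R : ℝ) = 2 * (k + 1) := by rw [hR]; push_cast; ring
    have h6 : D.c₀ * ((R : ℝ) - 1) ≤ D.c₀ * ∑ i ∈ Finset.range (D.m k + 1), |d i| :=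
      mul_le_mul_of_nonneg_left hsum D.hc₀.le
    have h7 : D.c₀ * k ≤ D.c₀ * ((R : ℝ) - 1) := by
      refine mul_le_mul_of_nonneg_left ?_ D.hc₀.le
      rw [hRR]
      have : (0 : ℝ) ≤ k := Nat.cast_nonneg k
      linarith
    linarith

end LData

end Pool.Agent.H61.PB
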