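import Pool.Agent.H61.PB.Ld

namespace Pool.Agent.H61.PB

open Filter Topology

variable {E : Type*} [NormedAddCommGroup E] [NormedSpace ℝ E]

theorem exists_LData (e : ℕ → E) (f : ℕ → E →L[ℝ] ℝ)
    (hof : ∀ i j, f i (e j) = if i = j then 1 else 0) (U : Set ℕ) (hU : U.Infinite)
    (K K₂ : ℝ) (hK0 : 0 ≤ K)
    (hK : ∀ T : Finset ℕ, (T : Set ℕ) ⊆ U → ∀ y, ‖∑ i ∈ T, f i y • e i‖ ≤ K * ‖y‖)
    (hK2 : ∀ N y, ‖∑ i ∈ Finset.range N, f i y • e i‖ ≤ K₂ * ‖y‖)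
    (hn : ∀ i ∈ U, ‖e i‖ = 1) (c₀ : ℝ) (hc₀ : 0 < c₀)
    (hell : ∀ A : Finset ℕ, (A : Set ℕ) ⊆ U → ∀ s : ℕ → ℝ,
      c₀ * ∑ j ∈ A, ‖s j‖ ≤ ‖∑ j ∈ A, s j • e j‖) :
    ∃ D : LData e f, ∀ k, D.m k = (2 * (k + 1)) * (k + 1) := by
  classical
  obtain ⟨u, hu, huU⟩ : ∃ u : ℕ → ℕ, StrictMono u ∧ ∀ n, u n ∈ U :=
    ⟨Nat.nth (fun n => n ∈ U), Nat.nth_strictMono hU, fun n => Nat.nth_mem_of_infinite hU n⟩
  have hr : Set.range u ⊆ U := by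
    rintro _ ⟨n, rfl⟩
    exact huU n
  let m : ℕ → ℕ := fun k => (2 * (k + 1)) * (k + 1)
  let b : ℕ → ℕ := fun k => Nat.rec 0 (fun k bk => u (bk + m k) + 1) k
  have hb1 : ∀ k, b (k + 1) = u (b k + m k) + 1 := fun k => rfl
  have hb : StrictMono b := strictMono_nat_of_lt_succ fun k => by
    rw [hb1]
    have := hu.le_apply (x := b k + m k)
    omega
  obtain ⟨blk, hblk⟩ := exists_blk b hb rfl
  exact ⟨{ u := u, m := m, b := b, blk := blk, K := K, K₂ := K₂, c₀ := c₀, hu := hu, hb := hb,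
           hb0 := rfl, hb1 := hb1, hblk := hblk, hof := hof, hK0 := hK0,
           hK := fun T hT y => hK T (hT.trans hr) y, hK2 := hK2, hn := fun n => hn _ (huU n),
           hc₀ := hc₀, hell := fun T hT s => hell T (hT.trans hr) s }, fun k => rfl⟩

end Pool.Agent.H61.PB
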