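import Pool.Agent.H61.PB.Upper

namespace Pool.Agent.H61.PB

open Filter Topology

/-- `y = ∑ αₙ xₙ`, with norm convergence of the partial sums in the given order. -/
def Expands (𝕜 : Type*) {E : Type*} [RCLike 𝕜] [NormedAddCommGroup E] [NormedSpace 𝕜 E]
    (x : ℕ → E) (α : ℕ → 𝕜) (y : E) : Prop :=
  Tendsto (fun N => ∑ i ∈ Finset.range N, α i • x i) atTop (𝓝 y)

/-- Schauder basis. -/
def IsBasis (𝕜 : Type*) {E : Type*} [RCLike 𝕜] [NormedAddCommGroup E] [NormedSpace 𝕜 E]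
    (x : ℕ → E) : Prop :=
  ∀ y, ∃! α : ℕ → 𝕜, Expands 𝕜 x α y

/-- Minimal sequence. -/
def IsMinimal (𝕜 : Type*) {E : Type*} [RCLike 𝕜] [NormedAddCommGroup E] [NormedSpace 𝕜 E]
    (x : ℕ → E) : Prop :=
  ∀ m, x m ∉ closure (Submodule.span 𝕜 (x '' {n | n ≠ m}) : Set E)

/-- Property (U). -/
def PropU (𝕜 : Type*) {E : Type*} [RCLike 𝕜] [NormedAddCommGroup E] [NormedSpace 𝕜 E]
    (x : ℕ → E) : Prop :=
  ∀ y, ∃! α : ℕ → 𝕜, ∃ σ : ℕ ≃ ℕ, Expands 𝕜 (x ∘ σ) (α ∘ σ) y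

variable {𝕜 : Type*} [RCLike 𝕜] {E : Type*} [NormedAddCommGroup E] [NormedSpace 𝕜 E]

theorem exists_cut (A : Finset ℕ) (f : ℕ → ℕ) (hf : Function.Injective f) (a : ℕ → ℝ)
    (ε : ℝ) (hε : 0 ≤ ε) (hs : ∑ j ∈ A, a j = 1) (hb : ∀ j ∈ A, a j ≤ ε) :
    ∃ N, 1 / 2 ≤ ∑ j ∈ A.filter (fun j => f j < N), a j ∧
      ∑ j ∈ A.filter (fun j => f j < N), a j ≤ 1 / 2 + ε := by
  classical
  have ex : ∃ N, 1 / 2 ≤ ∑ j ∈ A.filter (fun j => f j < N), a j := by
    refine ⟨A.sup f + 1, ?_⟩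
    rw [Finset.filter_true_of_mem fun j hj => Nat.lt_succ_of_le (Finset.le_sup (f := f) hj), hs]
    norm_num
  obtain ⟨N, hN, hmin⟩ : ∃ N, 1 / 2 ≤ ∑ j ∈ A.filter (fun j => f j < N), a j ∧
      ∀ m < N, ¬ 1 / 2 ≤ ∑ j ∈ A.filter (fun j => f j < m), a j :=
    ⟨Nat.find ex, Nat.find_spec ex, fun m hm => Nat.find_min ex hm⟩
  refine ⟨N, hN, ?_⟩
  rcases N with _ | N
  · simp at hN
    linarith
  · have h1 := hmin N (Nat.lt_succ_self N)
    push Not at h1
    have h2 : A.filter (fun j => f j < N + 1) =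
        A.filter (fun j => f j < N) ∪ A.filter (fun j => f j = N) := by
      ext j
      simp only [Finset.mem_filter, Finset.mem_union]
      constructor
      · rintro ⟨h3, h4⟩
        rcases Nat.lt_succ_iff_lt_or_eq.1 h4 with h | h
        · exact Or.inl ⟨h3, h⟩
        · exact Or.inr ⟨h3, h⟩
      · rintro (⟨h3, h4⟩ | ⟨h3, h4⟩)
        · exact ⟨h3, by omega⟩
        · exact ⟨h3, by omega⟩
    have hd : Disjoint (A.filter (fun j => f j < N)) (A.filter (fun j => f j = N)) := by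
      rw [Finset.disjoint_left]
      intro j h3 h4
      have h5 := (Finset.mem_filter.1 h3).2
      have h6 := (Finset.mem_filter.1 h4).2
      omega
    rw [h2, Finset.sum_union hd]
    have h3 : ∑ j ∈ A.filter (fun j => f j = N), a j ≤ ε := by
      rcases (A.filter (fun j => f j = N)).eq_empty_or_nonempty with h | ⟨j, hj⟩
      · rw [h, Finset.sum_empty]
        exact hε
      · have h4 : A.filter (fun j => f j = N) = {j} := by
          refine Finset.eq_singleton_iff_unique_mem.2 ⟨hj, fun i hi => ?_⟩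
          exact hf ((Finset.mem_filter.1 hi).2.trans (Finset.mem_filter.1 hj).2.symm)
        rw [h4, Finset.sum_singleton]
        exact hb j (Finset.mem_filter.1 hj).1
    linarith

namespace BlockData

variable {e : ℕ → E} {f : ℕ → E →L[𝕜] 𝕜} (B : BlockData e f)

theorem uniq (σ : ℕ ≃ ℕ) (β : ℕ → 𝕜) (y : E) (h : Expands 𝕜 (B.x ∘ σ) β y) (i : ℕ) :
    β i = B.F (σ i) y := by
  have h1 := ((B.F (σ i)).continuous.tendsto y).comp h
  refine tendsto_nhds_unique (tendsto_const_nhds.congr' ?_) h1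
  filter_upwards [eventually_gt_atTop i] with N hN
  simp only [Function.comp, map_sum, map_smul, B.bio, EmbeddingLike.apply_eq_iff_eq, smul_eq_mul,
    mul_ite, mul_one, mul_zero]
  rw [Finset.sum_ite_eq, if_pos (Finset.mem_range.2 hN)]

theorem isMinimal : IsMinimal 𝕜 B.x := by
  intro m hm
  have h1 : (Submodule.span 𝕜 (B.x '' {n | n ≠ m}) : Set E) ⊆ (B.F m).ker := by
    refine Submodule.span_le.2 ?_
    rintro _ ⟨n, hn, rfl⟩
    change B.F m (B.x n) = 0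
    rw [B.bio, if_neg fun e => hn e.symm]
  have h2 := closure_minimal h1 (B.F m).isClosed_ker hm
  change B.F m (B.x m) = 0 at h2
  rw [B.bio, if_pos rfl] at h2
  exact one_ne_zero h2

theorem propU (hst : SteinitzProp 𝕜)
    (hexp : ∀ y, Tendsto (fun N => ∑ i ∈ Finset.range N, f i y • e i) atTop (𝓝 y)) :
    PropU 𝕜 B.x := by
  intro y
  refine ⟨fun n => B.F n y, ?_, ?_⟩
  · obtain ⟨σ, hσ⟩ := B.exists_order hst hexp y
    exact ⟨σ, hσ⟩
  · rintro β ⟨σ, hσ⟩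
    funext n
    have := B.uniq σ _ y hσ (σ.symm n)
    simpa using this

theorem not_basis [CompleteSpace E]
    (hr : ∀ k : ℕ, ∃ a : ℕ → ℝ, (∀ j ∈ B.A k, 0 ≤ a j) ∧ ∑ j ∈ B.A k, a j = 1 ∧
      ‖∑ j ∈ B.A k, (a j : 𝕜) • e j‖ * (k + 1) ≤ 1) (τ : ℕ ≃ ℕ) :
    ¬ IsBasis 𝕜 (B.x ∘ τ) := by
  classical
  intro hb
  let S : ℕ → E →L[𝕜] E := fun N =>
    ∑ i ∈ Finset.range N, (B.F (τ i)).smulRight (B.x (τ i))
  have hS : ∀ N y, S N y = ∑ i ∈ Finset.range N, B.F (τ i) y • B.x (τ i) := by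
    intro N y; simp [S]
  obtain ⟨C, hC⟩ : ∃ C, ∀ N, ‖S N‖ ≤ C := by
    refine banach_steinhaus fun y => ?_
    obtain ⟨α, hα, -⟩ := hb y
    obtain ⟨C, hC⟩ := (hα.norm).bddAbove_range
    refine ⟨C, fun N => hC ⟨N, ?_⟩⟩
    rw [hS]
    simp only [B.uniq τ α y hα, Function.comp]
  have hC0 : 0 ≤ C := (ContinuousLinearMap.opNorm_nonneg _).trans (hC 0)
  have hK0 := B.hK0
  have hD0 : 0 ≤ B.K * C := mul_nonneg hK0 hC0
  obtain ⟨k, hk⟩ := exists_nat_gt (8 * (B.K * C) * B.K)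
  obtain ⟨a, ha0, ha1, ha2⟩ := hr k
  set A := B.A k with hA
  set q := B.q k with hq
  set η := ‖∑ j ∈ A, (a j : 𝕜) • e j‖ with hη
  have hη0 : 0 ≤ η := norm_nonneg _
  have hPA : ∀ T ⊆ A, ‖∑ j ∈ T, (a j : 𝕜) • e j‖ ≤ B.K * η := by
    intro T hT
    have h1 := B.hK k T (hT.trans (Finset.subset_insert _ _)) (∑ j ∈ A, (a j : 𝕜) • e j)
    have h2 : ∑ i ∈ T, f i (∑ j ∈ A, (a j : 𝕜) • e j) • e i = ∑ i ∈ T, (a i : 𝕜) • e i := by
      refine Finset.sum_congr rfl fun i hi => ?_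
      rw [map_sum]
      simp only [map_smul, B.hof, smul_eq_mul, mul_ite, mul_one, mul_zero]
      rw [Finset.sum_ite_eq, if_pos (hT hi)]
    rw [h2] at h1
    exact h1
  have haK : ∀ j ∈ A, a j ≤ B.K * η := by
    intro j hj
    have h1 := hPA {j} (Finset.singleton_subset_iff.2 hj)
    rw [Finset.sum_singleton, norm_smul, B.hn k j (Finset.mem_insert_of_mem hj), mul_one,
      RCLike.norm_ofReal, abs_of_nonneg (ha0 j hj)] at h1
    exact h1
  obtain ⟨N, hN1, hN2⟩ := exists_cut A (fun j => τ.symm j) τ.symm.injective a (B.K * η)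
    (mul_nonneg hK0 hη0) ha1 haK
  set A1 := A.filter fun j => τ.symm j < N with hA1
  set A2 := A.filter fun j => ¬ τ.symm j < N with hA2
  have hsum : ∑ j ∈ A1, a j + ∑ j ∈ A2, a j = 1 := by
    rw [← ha1]
    exact Finset.sum_filter_add_sum_filter_not _ _ _
  have hxA : ∀ j ∈ A, B.x j = e j + e q := by
    intro j hj
    have h1 : B.blk j = k := B.blk_eq (B.hAs k hj)
    have h2 : j ≠ q := fun h => B.hq k (by rw [← hq, ← h]; exact hj)
    unfold x newX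
    rw [h1, if_neg h2, if_pos hj]
  have hSx : ∀ j, S N (B.x j) = if τ.symm j < N then B.x j else 0 := by
    intro j
    rw [hS]
    simp only [B.bio, ite_smul, one_smul, zero_smul]
    have : ∀ i, (τ i = j) ↔ (i = τ.symm j) := fun i => by
      rw [Equiv.eq_symm_apply]
    simp only [this]
    rw [Finset.sum_ite_eq']
    simp only [Finset.mem_range, Equiv.apply_symm_apply]
  set y : E := ∑ j ∈ A1, (a j : 𝕜) • B.x j - ∑ j ∈ A2, (a j : 𝕜) • B.x j with hy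
  have hSy : S N y = ∑ j ∈ A1, (a j : 𝕜) • B.x j := by
    rw [hy, map_sub, map_sum, map_sum]
    have h1 : ∑ j ∈ A2, S N ((a j : 𝕜) • B.x j) = 0 := by
      refine Finset.sum_eq_zero fun j hj => ?_
      rw [map_smul, hSx, if_neg (Finset.mem_filter.1 hj).2, smul_zero]
    rw [h1, sub_zero]
    refine Finset.sum_congr rfl fun j hj => ?_
    rw [map_smul, hSx, if_pos (Finset.mem_filter.1 hj).2]
  have hx : ∀ T ⊆ A, ∑ j ∈ T, (a j : 𝕜) • B.x j = ∑ j ∈ T, (a j : 𝕜) • e j +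
      ((∑ j ∈ T, a j : ℝ) : 𝕜) • e q := by
    intro T hT
    rw [Finset.sum_congr rfl fun j hj => by rw [hxA j (hT hj), smul_add],
      Finset.sum_add_distrib, ← Finset.sum_smul]
    congr 2
    push_cast
    rfl
  have hx1 := hx A1 (Finset.filter_subset _ _)
  have hx2 := hx A2 (Finset.filter_subset _ _)
  have heq1 : ‖e q‖ = 1 := B.hn k q (Finset.mem_insert_self _ _)
  have hynorm : ‖y‖ ≤ 4 * (B.K * η) := by
    have h0 : y = (∑ j ∈ A1, (a j : 𝕜) • e j - ∑ j ∈ A2, (a j : 𝕜) • e j) +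
        ((∑ j ∈ A1, a j - ∑ j ∈ A2, a j : ℝ) : 𝕜) • e q := by
      rw [hy, hx1, hx2, RCLike.ofReal_sub, sub_smul]
      abel
    have h1 : ‖((∑ j ∈ A1, a j - ∑ j ∈ A2, a j : ℝ) : 𝕜) • e q‖ ≤ 2 * (B.K * η) := by
      rw [norm_smul, heq1, mul_one, RCLike.norm_ofReal, abs_le]
      constructor <;> linarith
    rw [h0]
    have h5 := norm_add_le (∑ j ∈ A1, (a j : 𝕜) • e j - ∑ j ∈ A2, (a j : 𝕜) • e j)
      (((∑ j ∈ A1, a j - ∑ j ∈ A2, a j : ℝ) : 𝕜) • e q)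
    have h6 := norm_sub_le (∑ j ∈ A1, (a j : 𝕜) • e j) (∑ j ∈ A2, (a j : 𝕜) • e j)
    have h7 := hPA A1 (Finset.filter_subset _ _)
    have h8 := hPA A2 (Finset.filter_subset _ _)
    linarith
  have hfq : f q (S N y) = ((∑ j ∈ A1, a j : ℝ) : 𝕜) := by
    rw [hSy, hx1, map_add, map_sum, map_smul, B.hof, if_pos rfl, Finset.sum_eq_zero]
    · simp
    · intro j hj
      rw [map_smul, B.hof, if_neg, smul_zero]
      intro h
      exact B.hq k (by rw [← hq, h]; exact Finset.filter_subset _ _ hj)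
  have h1 : ‖f q (S N y)‖ ≤ B.K * ‖S N y‖ := by
    have h := B.hK k {q} (Finset.singleton_subset_iff.2 (Finset.mem_insert_self _ _)) (S N y)
    rw [Finset.sum_singleton, norm_smul, heq1, mul_one] at h
    exact h
  have h2 : ‖S N y‖ ≤ C * ‖y‖ := (S N).le_of_opNorm_le (hC N) y
  rw [hfq, RCLike.norm_ofReal, abs_of_nonneg (by linarith)] at h1
  have h3 : (1 : ℝ) / 2 ≤ (B.K * C) * (4 * (B.K * η)) := by
    calc (1 : ℝ) / 2 ≤ B.K * ‖S N y‖ := hN1.trans h1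
      _ ≤ B.K * (C * ‖y‖) := by gcongr
      _ = (B.K * C) * ‖y‖ := by ring
      _ ≤ _ := by gcongr
  have hk0 : (0 : ℝ) < (k : ℝ) + 1 := by positivity
  have h4 : 1 ≤ (8 * (B.K * C) * B.K) * η := by nlinarith
  have h5 : (8 * (B.K * C) * B.K) * η ≤ k * η := by gcongr
  have h6 : 0 < η := by
    rcases hη0.lt_or_eq with h | h
    · exact h
    · rw [← h] at h4
      linarith
  nlinarith

end BlockData

end Pool.Agent.H61.PB
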