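import Pool.Agent.H61.PB.Steinitz

namespace Pool.Agent.H61.PB

theorem perm_of_list {F : Type*} [AddCommMonoid F] : ∀ (n : ℕ) (A : Finset ℕ) (l : List ℕ),
    A.card = n → l.Nodup → (∀ x, x ∈ l ↔ x ∈ A) →
    ∃ p : Equiv.Perm ℕ, (∀ i ∉ A, p i = i) ∧ ∀ N : ℕ, ∃ k : ℕ, ∀ G : ℕ → F,
      ∑ i ∈ A.filter (fun i => i < N), G (p i) = ((l.take k).map G).sum := by
  intro n
  induction n with
  | zero =>
    intro A l hA _ _
    rw [Finset.card_eq_zero] at hA
    subst hA
    exact ⟨1, fun _ _ => rfl, fun N => ⟨0, fun G => by simp⟩⟩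
  | succ n ih =>
    intro A l hA hl hm
    have hne : A.Nonempty := Finset.card_pos.1 (by omega)
    rcases l with _ | ⟨x, l1⟩
    · obtain ⟨y, hy⟩ := hne
      have := (hm y).2 hy
      simp at this
    have hxA : x ∈ A := (hm x).1 List.mem_cons_self
    obtain ⟨s, hsA, hsmin⟩ : ∃ s ∈ A, ∀ y ∈ A, s ≤ y :=
      ⟨A.min' hne, A.min'_mem hne, fun y hy => A.min'_le y hy⟩
    rw [List.nodup_cons] at hl
    obtain ⟨p', hp1, hp2⟩ := ih (A.erase s) (l1.map (Equiv.swap s x))
      (by rw [Finset.card_erase_of_mem hsA, hA]; rfl)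
      (hl.2.map (Equiv.swap s x).injective)
      (by
        intro y
        rw [List.mem_map, Finset.mem_erase]
        constructor
        · rintro ⟨z, hz, rfl⟩
          have hzA : z ∈ A := (hm z).1 (List.mem_cons_of_mem _ hz)
          have hzx : z ≠ x := fun h => hl.1 (h ▸ hz)
          by_cases hzs : z = s
          · subst hzs
            rw [Equiv.swap_apply_left]
            exact ⟨fun h => hzx h.symm, hxA⟩
          · rw [Equiv.swap_apply_of_ne_of_ne hzs hzx]
            exact ⟨hzs, hzA⟩
        · rintro ⟨hys, hyA⟩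
          refine ⟨Equiv.swap s x y, ?_, Equiv.swap_apply_self _ _ _⟩
          by_cases hyx : y = x
          · rw [hyx, Equiv.swap_apply_right]
            have h1 := (hm s).2 hsA
            rw [List.mem_cons] at h1
            rcases h1 with h1 | h1
            · exact absurd (hyx.trans h1.symm) hys
            · exact h1
          · rw [Equiv.swap_apply_of_ne_of_ne hys hyx]
            have h1 := (hm y).2 hyA
            rw [List.mem_cons] at h1
            exact h1.resolve_left hyx)
    refine ⟨p'.trans (Equiv.swap s x), fun i hi => ?_, fun N => ?_⟩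
    · have h1 : p' i = i := hp1 i fun h => hi (Finset.mem_of_mem_erase h)
      rw [Equiv.trans_apply, h1, Equiv.swap_apply_of_ne_of_ne]
      · rintro rfl; exact hi hsA
      · rintro rfl; exact hi hxA
    · by_cases hN : s < N
      · obtain ⟨k, hk⟩ := hp2 N
        refine ⟨k + 1, fun G => ?_⟩
        have h1 : A.filter (fun i => i < N) = insert s ((A.erase s).filter (fun i => i < N)) := by
          ext i
          simp only [Finset.mem_filter, Finset.mem_insert, Finset.mem_erase]
          constructor
          · rintro ⟨h1, h2⟩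
            by_cases h3 : i = s
            · exact Or.inl h3
            · exact Or.inr ⟨⟨h3, h1⟩, h2⟩
          · rintro (rfl | ⟨⟨_, h1⟩, h2⟩)
            · exact ⟨hsA, hN⟩
            · exact ⟨h1, h2⟩
        rw [h1, Finset.sum_insert (by simp)]
        have h2 : p' s = s := hp1 s (Finset.notMem_erase s A)
        rw [List.take_succ_cons, List.map_cons, List.sum_cons]
        have h3 := hk (fun i => G (Equiv.swap s x i))
        simp only [Equiv.trans_apply]
        rw [h2, Equiv.swap_apply_left, h3]
        congr 2
        rw [← List.map_take, List.map_map]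
        refine List.map_congr_left fun i _ => ?_
        simp only [Function.comp, Equiv.swap_apply_self]
      · refine ⟨0, fun G => ?_⟩
        rw [List.take_zero, List.map_nil, List.sum_nil, Finset.filter_false_of_mem,
          Finset.sum_empty]
        intro i hi h
        have := hsmin i hi
        omega

theorem steinitzProp (𝕜 : Type*) [RCLike 𝕜] : SteinitzProp 𝕜 := by
  classical
  intro A a M h1 h2
  rcases A.eq_empty_or_nonempty with hA | hA
  · subst hA
    rw [Finset.sum_empty, norm_zero] at h2
    refine ⟨1, fun _ _ => rfl, fun N => ?_⟩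
    rw [Finset.filter_empty, Finset.sum_empty, norm_zero]
    linarith
  have hM : 0 ≤ M := (norm_nonneg _).trans h2
  have hm : 0 < (A.card : ℝ) := by exact_mod_cast Finset.card_pos.2 hA
  have hm1 : 1 ≤ (A.card : ℝ) := by exact_mod_cast Finset.card_pos.2 hA
  have hmK : (A.card : 𝕜) ≠ 0 := by
    exact_mod_cast (Finset.card_pos.2 hA).ne'
  set t := ∑ j ∈ A, a j with ht
  obtain ⟨l, hl1, hl2⟩ := steinitz_list (fun j => a j - t / (A.card : 𝕜)) (2 * M) A
    (fun j hj => by
      have h3 : ‖t / (A.card : 𝕜)‖ ≤ M := by
        rw [norm_div, RCLike.norm_natCast, div_le_iff₀ hm]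
        nlinarith
      have h4 := norm_sub_le (a j) (t / (A.card : 𝕜))
      have h5 := h1 j hj
      linarith)
    (by
      rw [Finset.sum_sub_distrib, Finset.sum_const, nsmul_eq_mul, mul_div_cancel₀ _ hmK, ← ht,
        sub_self])
    (by linarith)
  obtain ⟨p, hp1, hp2⟩ := perm_of_list (F := 𝕜) _ A l rfl
    (hl1.nodup_iff.2 (Finset.nodup_toList A)) (fun x => by
      rw [hl1.mem_iff, Finset.mem_toList])
  refine ⟨p, hp1, fun N => ?_⟩
  obtain ⟨k, hk⟩ := hp2 N
  rw [hk]
  have h3 : ((l.take k).map a).sum = ((l.take k).map fun j => a j - t / (A.card : 𝕜)).sum +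
      ((l.take k).length : 𝕜) * (t / (A.card : 𝕜)) := by
    generalize l.take k = l0
    induction l0 with
    | nil => simp
    | cons x l0 ih =>
      rw [List.map_cons, List.sum_cons, ih, List.map_cons, List.sum_cons, List.length_cons]
      push_cast
      ring
  rw [h3]
  have h4 := hl2 k
  have h5 : ‖((l.take k).length : 𝕜) * (t / (A.card : 𝕜))‖ ≤ M := by
    rw [norm_mul, norm_div, RCLike.norm_natCast, RCLike.norm_natCast]
    have h6 : ((l.take k).length : ℝ) ≤ A.card := by
      have h7 : (l.take k).length ≤ l.length := by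
        rw [List.length_take]
        exact min_le_right _ _
      have h8 : l.length = A.card := by rw [hl1.length_eq, Finset.length_toList]
      exact_mod_cast h8 ▸ h7
    rw [mul_div_assoc']
    rw [div_le_iff₀ hm]
    nlinarith [norm_nonneg t]
  refine (norm_add_le _ _).trans ?_
  linarith

end Pool.Agent.H61.PB
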