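import Pool.Agent.H61.PB.Lower
import Pool.Agent.H61.PB.Steinitz2

namespace Pool.Agent.H61.PB

open Filter Topology

variable {𝕜 : Type*} [RCLike 𝕜] {E : Type*} [NormedAddCommGroup E] [NormedSpace 𝕜 E]

/-- Far out sets with small convex combinations. -/
theorem far (e : ℕ → E) (f : ℕ → E →L[𝕜] 𝕜)
    (hof : ∀ i j, f i (e j) = if i = j then 1 else 0) (U : Set ℕ) (K : ℝ) (hK0 : 0 ≤ K)
    (hK : ∀ T : Finset ℕ, (T : Set ℕ) ⊆ U → ∀ y, ‖∑ i ∈ T, f i y • e i‖ ≤ K * ‖y‖)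
    (hn : ∀ i ∈ U, ‖e i‖ = 1)
    (hr : ∀ δ : ℝ, 0 < δ → ∃ (A : Finset ℕ) (a : ℕ → ℝ), (A : Set ℕ) ⊆ U ∧
      (∀ j ∈ A, 0 ≤ a j) ∧ ∑ j ∈ A, a j = 1 ∧ ‖∑ j ∈ A, (a j : 𝕜) • e j‖ ≤ δ)
    (δ : ℝ) (hδ : 0 < δ) (N : ℕ) : ∃ (A : Finset ℕ) (a : ℕ → ℝ), (A : Set ℕ) ⊆ U ∧
      (∀ j ∈ A, N ≤ j) ∧ (∀ j ∈ A, 0 ≤ a j) ∧ ∑ j ∈ A, a j = 1 ∧
      ‖∑ j ∈ A, (a j : 𝕜) • e j‖ ≤ δ := by
  classical
  obtain ⟨L, hL⟩ : ∃ L, L = K + 1 := ⟨_, rfl⟩
  have hL0 : 0 < L := by rw [hL]; linarith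
  obtain ⟨δ', hδ'⟩ : ∃ δ', δ' = min (δ / (2 * L)) (1 / (2 * L * (N + 1))) := ⟨_, rfl⟩
  have hN0 : (0 : ℝ) < (N : ℝ) + 1 := by positivity
  have hδ'0 : 0 < δ' := by
    rw [hδ']
    exact lt_min (by positivity) (by positivity)
  have hd1 : 2 * L * δ' ≤ δ := by
    have : δ' ≤ δ / (2 * L) := by rw [hδ']; exact min_le_left _ _
    rw [le_div_iff₀ (by positivity)] at this
    linarith
  have hd2 : L * δ' * (N + 1) ≤ 1 / 2 := by
    have : δ' ≤ 1 / (2 * L * (N + 1)) := by rw [hδ']; exact min_le_right _ _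
    rw [le_div_iff₀ (by positivity)] at this
    linarith
  obtain ⟨A, a, hAU, ha0, ha1, ha2⟩ := hr δ' hδ'0
  have hPA : ∀ T ⊆ A, ‖∑ j ∈ T, (a j : 𝕜) • e j‖ ≤ L * δ' := by
    intro T hT
    have h1 := hK T (fun x hx => hAU (hT hx)) (∑ j ∈ A, (a j : 𝕜) • e j)
    have h2 : ∑ i ∈ T, f i (∑ j ∈ A, (a j : 𝕜) • e j) • e i = ∑ i ∈ T, (a i : 𝕜) • e i := by
      refine Finset.sum_congr rfl fun i hi => ?_
      rw [map_sum]
      simp only [map_smul, hof, smul_eq_mul, mul_ite, mul_one, mul_zero]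
      rw [Finset.sum_ite_eq, if_pos (hT hi)]
    rw [h2] at h1
    refine h1.trans ?_
    have h3 : K * ‖∑ j ∈ A, (a j : 𝕜) • e j‖ ≤ K * δ' := by gcongr
    have h4 : K * δ' ≤ L * δ' := by
      rw [hL]
      nlinarith
    exact h3.trans h4
  have haK : ∀ j ∈ A, a j ≤ L * δ' := by
    intro j hj
    have h1 := hPA {j} (Finset.singleton_subset_iff.2 hj)
    rw [Finset.sum_singleton, norm_smul, hn j (hAU hj), mul_one,
      RCLike.norm_ofReal, abs_of_nonneg (ha0 j hj)] at h1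
    exact h1
  set A' := A.filter fun j => N ≤ j with hA'
  have hsmall : ∑ j ∈ A.filter (fun j => ¬ N ≤ j), a j ≤ 1 / 2 := by
    have h1 : ∑ j ∈ A.filter (fun j => ¬ N ≤ j), a j ≤
        (A.filter (fun j => ¬ N ≤ j)).card • (L * δ') :=
      Finset.sum_le_card_nsmul _ _ _ fun j hj => haK j (Finset.filter_subset _ _ hj)
    have h2 : (A.filter (fun j => ¬ N ≤ j)).card ≤ N := by
      have h3 : A.filter (fun j => ¬ N ≤ j) ⊆ Finset.range N := by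
        intro j hj
        rw [Finset.mem_range]
        have := (Finset.mem_filter.1 hj).2
        omega
      have h4 := Finset.card_le_card h3
      rwa [Finset.card_range] at h4
    rw [nsmul_eq_mul] at h1
    have h3 : ((A.filter (fun j => ¬ N ≤ j)).card : ℝ) ≤ N := by exact_mod_cast h2
    have h4 : 0 ≤ L * δ' := by positivity
    nlinarith
  have hsum : ∑ j ∈ A', a j + ∑ j ∈ A.filter (fun j => ¬ N ≤ j), a j = 1 := by
    rw [← ha1]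
    exact Finset.sum_filter_add_sum_filter_not _ _ _
  have hs : 1 / 2 ≤ ∑ j ∈ A', a j := by linarith
  have hs0 : 0 < ∑ j ∈ A', a j := by linarith
  refine ⟨A', fun j => a j / ∑ j ∈ A', a j, fun x hx => hAU (Finset.filter_subset _ _ hx),
    fun j hj => (Finset.mem_filter.1 hj).2, fun j hj => ?_, ?_, ?_⟩
  · exact div_nonneg (ha0 j (Finset.filter_subset _ _ hj)) hs0.le
  · rw [← Finset.sum_div, div_self hs0.ne']
  · have h1 : ∑ j ∈ A', ((a j / ∑ j ∈ A', a j : ℝ) : 𝕜) • e j =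
        (((∑ j ∈ A', a j)⁻¹ : ℝ) : 𝕜) • ∑ j ∈ A', (a j : 𝕜) • e j := by
      rw [Finset.smul_sum]
      refine Finset.sum_congr rfl fun j _ => ?_
      rw [smul_smul, ← RCLike.ofReal_mul]
      congr 2
      rw [div_eq_inv_mul]
    rw [h1, norm_smul, RCLike.norm_ofReal, abs_of_nonneg (by positivity)]
    have h2 := hPA A' (Finset.filter_subset _ _)
    have h3 : (∑ j ∈ A', a j)⁻¹ ≤ 2 := by
      rw [inv_le_comm₀ hs0 (by norm_num)]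
      linarith
    calc _ ≤ 2 * (L * δ') := by gcongr
      _ ≤ δ := by linarith

theorem exists_data (e : ℕ → E) (f : ℕ → E →L[𝕜] 𝕜)
    (hof : ∀ i j, f i (e j) = if i = j then 1 else 0) (U : Set ℕ) (K K₂ : ℝ) (hK0 : 0 ≤ K)
    (hK : ∀ T : Finset ℕ, (T : Set ℕ) ⊆ U → ∀ y, ‖∑ i ∈ T, f i y • e i‖ ≤ K * ‖y‖)
    (hK2 : ∀ N y, ‖∑ i ∈ Finset.range N, f i y • e i‖ ≤ K₂ * ‖y‖)
    (hn : ∀ i ∈ U, ‖e i‖ = 1)
    (hr : ∀ δ : ℝ, 0 < δ → ∃ (A : Finset ℕ) (a : ℕ → ℝ), (A : Set ℕ) ⊆ U ∧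
      (∀ j ∈ A, 0 ≤ a j) ∧ ∑ j ∈ A, a j = 1 ∧ ‖∑ j ∈ A, (a j : 𝕜) • e j‖ ≤ δ) :
    ∃ B : BlockData e f, ∀ k : ℕ, ∃ a : ℕ → ℝ, (∀ j ∈ B.A k, 0 ≤ a j) ∧
      ∑ j ∈ B.A k, a j = 1 ∧ ‖∑ j ∈ B.A k, (a j : 𝕜) • e j‖ * (k + 1) ≤ 1 := by
  classical
  have hfar := far e f hof U K hK0 hK hn hr
  have step : ∀ N k : ℕ, ∃ (q : ℕ) (A : Finset ℕ) (N' : ℕ), N ≤ q ∧ q < N' ∧ q ∈ U ∧
      (∀ i ∈ A, q < i ∧ i < N' ∧ i ∈ U) ∧ ∃ a : ℕ → ℝ, (∀ j ∈ A, 0 ≤ a j) ∧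
      ∑ j ∈ A, a j = 1 ∧ ‖∑ j ∈ A, (a j : 𝕜) • e j‖ * (k + 1) ≤ 1 := by
    intro N k
    obtain ⟨A₀, a₀, h1, h2, _, h3, _⟩ := hfar 1 one_pos N
    have hne : A₀.Nonempty := by
      by_contra hc
      rw [Finset.not_nonempty_iff_eq_empty] at hc
      rw [hc, Finset.sum_empty] at h3
      exact zero_ne_one h3
    obtain ⟨q, hq⟩ := hne
    have hk0 : (0 : ℝ) < (k : ℝ) + 1 := by positivity
    obtain ⟨A, a, h4, h5, h6, h7, h8⟩ := hfar (1 / (k + 1)) (by positivity) (q + 1)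
    refine ⟨q, A, A.sup id + q + 1, h2 q hq, by omega, h1 hq, fun i hi => ⟨?_, ?_, h4 hi⟩,
      a, h6, h7, ?_⟩
    · exact h5 i hi
    · have := Finset.le_sup (f := id) hi
      simp only [id] at this
      omega
    · rw [le_div_iff₀ hk0] at h8
      exact h8
  choose Q AA NN hs1 hs2 hs3 hs4 aa hs5 hs6 hs7 using step
  let b : ℕ → ℕ := fun k => Nat.rec 0 (fun k bk => NN bk k) k
  have hb1 : ∀ k, b (k + 1) = NN (b k) k := fun k => rfl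
  have hb : StrictMono b := strictMono_nat_of_lt_succ fun k => by
    rw [hb1]
    exact lt_of_le_of_lt (hs1 _ _) (hs2 _ _)
  obtain ⟨blk, hblk⟩ := exists_blk b hb rfl
  have hqA : ∀ k, Q (b k) k ∉ AA (b k) k := fun k h => lt_irrefl _ (hs4 _ _ _ h).1
  have hinU : ∀ k, ∀ i ∈ insert (Q (b k) k) (AA (b k) k), i ∈ U := by
    intro k i hi
    rw [Finset.mem_insert] at hi
    rcases hi with rfl | hi
    · exact hs3 _ _
    · exact (hs4 _ _ _ hi).2.2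
  have hKk : ∀ k, ∀ T ⊆ insert (Q (b k) k) (AA (b k) k), ∀ y,
      ‖∑ i ∈ T, f i y • e i‖ ≤ K * ‖y‖ := fun k T hT y =>
    hK T (fun i hi => hinU k i (hT hi)) y
  choose w hw1 hw2 hw3 using fun k => exists_w e f hof (Q (b k) k) (AA (b k) k) (hqA k) K
    (hKk k _ (Finset.Subset.refl _))
  refine ⟨{ b := b, blk := blk, q := fun k => Q (b k) k, A := fun k => AA (b k) k, w := w,
            K := K, K₂ := K₂, hb := hb, hb0 := rfl, hblk := hblk, hof := hof, hq := hqA,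
            hqs := fun k => ?_, hAs := fun k i hi => ?_, hK0 := hK0, hK := hKk, hK2 := hK2,
            hn := fun k i hi => hn i (hinU k i hi), hw1 := hw1, hw2 := hw2, hw3 := hw3 },
    fun k => ⟨aa (b k) k, hs5 _ _, hs6 _ _, hs7 _ _⟩⟩
  · rw [Finset.mem_Ico, hb1]
    exact ⟨hs1 _ _, hs2 _ _⟩
  · rw [Finset.mem_Ico, hb1]
    exact ⟨(hs1 _ _).trans (hs4 _ _ _ hi).1.le, (hs4 _ _ _ hi).2.1⟩

theorem main [CompleteSpace E] (g : SchauderBasis 𝕜 E) (U : Set ℕ) (K : ℝ)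
    (hK : ∀ T : Finset ℕ, (T : Set ℕ) ⊆ U → ‖GeneralSchauderBasis.proj g T‖ ≤ K)
    (hn : ∀ i ∈ U, ‖g i‖ = 1)
    (hr : ∀ δ : ℝ, 0 < δ → ∃ (A : Finset ℕ) (a : ℕ → ℝ), (A : Set ℕ) ⊆ U ∧
      (∀ j ∈ A, 0 ≤ a j) ∧ ∑ j ∈ A, a j = 1 ∧ ‖∑ j ∈ A, (a j : 𝕜) • g j‖ ≤ δ) :
    ∃ x : ℕ → E, IsMinimal 𝕜 x ∧ PropU 𝕜 x ∧ ∀ τ : ℕ ≃ ℕ, ¬ IsBasis 𝕜 (x ∘ τ) := by
  have hK0 : 0 ≤ K := (norm_nonneg _).trans (hK ∅ (by simp))
  obtain ⟨K₂, hK2⟩ := g.exists_norm_proj_le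
  have hof : ∀ i j, g.coord i (g j) = if i = j then 1 else 0 := fun i j => by
    rw [g.ortho]
    by_cases h : i = j
    · subst h
      simp
    · rw [if_neg h]
      simp [h]
  have hexp : ∀ y, Tendsto (fun N => ∑ i ∈ Finset.range N, g.coord i y • g i) atTop (𝓝 y) := by
    intro y
    have := SchauderBasis.tendsto_proj g y
    simpa only [SchauderBasis.proj_apply] using this
  obtain ⟨B, hB⟩ := exists_data (fun i => g i) g.coord hof U K K₂ hK0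
    (fun T hT y => by
      have := (GeneralSchauderBasis.proj g T).le_of_opNorm_le (hK T hT) y
      rwa [GeneralSchauderBasis.proj_apply] at this)
    (fun N y => by
      have := (SchauderBasis.proj g N).le_of_opNorm_le (hK2 N) y
      rwa [SchauderBasis.proj_apply] at this)
    hn hr
  exact ⟨B.x, B.isMinimal, B.propU (steinitzProp 𝕜) hexp, B.not_basis hB⟩

end Pool.Agent.H61.PB
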