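import Pool.Agent.H61.PB.Unif

namespace Pool.Agent.H61.PB

open Filter Topology

variable {𝕜 : Type*} [RCLike 𝕜] {X Z : Type*} [NormedAddCommGroup X] [NormedSpace 𝕜 X]
  [NormedAddCommGroup Z] [NormedSpace 𝕜 Z]

/-- Interleaved vectors of a product. -/
noncomputable def prodE (g : ℕ → X) (h : ℕ → Z) (n : ℕ) : X × Z :=
  if n % 2 = 0 then (g (n / 2), 0) else (0, h (n / 2))

/-- Interleaved functionals. -/
noncomputable def prodF (g : ℕ → X →L[𝕜] 𝕜) (h : ℕ → Z →L[𝕜] 𝕜) (n : ℕ) : X × Z →L[𝕜] 𝕜 :=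
  if n % 2 = 0 then (g (n / 2)).comp (ContinuousLinearMap.fst 𝕜 X Z)
  else (h (n / 2)).comp (ContinuousLinearMap.snd 𝕜 X Z)

theorem prod_bio (g : ℕ → X) (h : ℕ → Z) (g' : ℕ → X →L[𝕜] 𝕜) (h' : ℕ → Z →L[𝕜] 𝕜)
    (hg : ∀ i j, g' i (g j) = if i = j then 1 else 0)
    (hh : ∀ i j, h' i (h j) = if i = j then 1 else 0) (i j : ℕ) :
    prodF g' h' i (prodE g h j) = if i = j then 1 else 0 := by
  unfold prodF prodE
  by_cases h1 : i % 2 = 0
  · by_cases h2 : j % 2 = 0
    · rw [if_pos h1, if_pos h2]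
      simp only [ContinuousLinearMap.comp_apply, ContinuousLinearMap.coe_fst']
      rw [hg]
      congr 1
      simp only [eq_iff_iff]
      omega
    · rw [if_pos h1, if_neg h2, if_neg (by omega)]
      simp
  · by_cases h2 : j % 2 = 0
    · rw [if_neg h1, if_pos h2, if_neg (by omega)]
      simp
    · rw [if_neg h1, if_neg h2]
      simp only [ContinuousLinearMap.comp_apply, ContinuousLinearMap.coe_snd']
      rw [hh]
      congr 1
      simp only [eq_iff_iff]
      omega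

theorem prod_sum (g : ℕ → X) (h : ℕ → Z) (g' : ℕ → X →L[𝕜] 𝕜) (h' : ℕ → Z →L[𝕜] 𝕜)
    (y : X × Z) (N : ℕ) : ∑ i ∈ Finset.range N, prodF g' h' i y • prodE g h i =
      (∑ i ∈ Finset.range ((N + 1) / 2), g' i y.1 • g i,
        ∑ i ∈ Finset.range (N / 2), h' i y.2 • h i) := by
  induction N with
  | zero =>
    simp
    rfl
  | succ N ih =>
    rw [Finset.sum_range_succ, ih]
    unfold prodF prodE
    by_cases h1 : N % 2 = 0
    · rw [if_pos h1, if_pos h1]
      have e1 : (N + 1 + 1) / 2 = (N + 1) / 2 + 1 := by omega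
      have e2 : (N + 1) / 2 = N / 2 := by omega
      rw [e1, Finset.sum_range_succ, e2]
      refine Prod.ext ?_ ?_
      · simp
      · simp
    · rw [if_neg h1, if_neg h1]
      have e1 : (N + 1 + 1) / 2 = (N + 1) / 2 := by omega
      have e2 : (N + 1) / 2 = N / 2 + 1 := by omega
      rw [e1, e2, Finset.sum_range_succ]
      refine Prod.ext ?_ ?_
      · simp
      · simp
        rw [Finset.sum_range_succ]

theorem prod_tendsto (g : ℕ → X) (h : ℕ → Z) (g' : ℕ → X →L[𝕜] 𝕜) (h' : ℕ → Z →L[𝕜] 𝕜)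
    (hg : ∀ y, Tendsto (fun N => ∑ i ∈ Finset.range N, g' i y • g i) atTop (𝓝 y))
    (hh : ∀ y, Tendsto (fun N => ∑ i ∈ Finset.range N, h' i y • h i) atTop (𝓝 y)) (y : X × Z) :
    Tendsto (fun N => ∑ i ∈ Finset.range N, prodF g' h' i y • prodE g h i) atTop (𝓝 y) := by
  simp only [prod_sum]
  have t1 : Tendsto (fun N : ℕ => (N + 1) / 2) atTop atTop := by
    rw [tendsto_atTop]
    intro b
    filter_upwards [eventually_ge_atTop (2 * b)] with N hN
    omega
  have t2 : Tendsto (fun N : ℕ => N / 2) atTop atTop := by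
    rw [tendsto_atTop]
    intro b
    filter_upwards [eventually_ge_atTop (2 * b)] with N hN
    omega
  exact ((hg y.1).comp t1).prodMk_nhds ((hh y.2).comp t2)

theorem prod_proj (g : ℕ → X) (h : ℕ → Z) (g' : ℕ → X →L[𝕜] 𝕜) (h' : ℕ → Z →L[𝕜] 𝕜)
    (K : ℝ) (hK0 : 0 ≤ K) (hK : ∀ (T : Finset ℕ) (y : X), ‖∑ i ∈ T, g' i y • g i‖ ≤ K * ‖y‖)
    (T : Finset ℕ) (hT : (T : Set ℕ) ⊆ {n | n % 2 = 0}) (y : X × Z) :
    ‖∑ i ∈ T, prodF g' h' i y • prodE g h i‖ ≤ K * ‖y‖ := by
  classical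
  have h1 : ∑ i ∈ T, prodF g' h' i y • prodE g h i =
      (∑ i ∈ T.image (fun n => n / 2), g' i y.1 • g i, 0) := by
    rw [Finset.sum_image]
    · have h2 : ∀ i ∈ T, prodF g' h' i y • prodE g h i =
          ((g' (i / 2) y.1 • g (i / 2), 0) : X × Z) := by
        intro i hi
        have h3 : i % 2 = 0 := hT hi
        unfold prodF prodE
        rw [if_pos h3, if_pos h3]
        simp
      rw [Finset.sum_congr rfl h2]
      refine Prod.ext ?_ ?_
      · simp [Prod.fst_sum]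
      · simp [Prod.snd_sum]
    · intro a ha b hb hab
      have h3 : a % 2 = 0 := hT ha
      have h4 : b % 2 = 0 := hT hb
      simp only at hab
      omega
  rw [h1, Prod.norm_mk, norm_zero, max_eq_left (norm_nonneg _)]
  exact (hK _ _).trans (mul_le_mul_of_nonneg_left (norm_fst_le y) hK0)

end Pool.Agent.H61.PB
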