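import Pool.Agent.H61.PB.Block2

/-!
# The plane Steinitz lemma, for permutations of a finite set of natural numbers
-/

namespace Pool.Agent.H61.PB

theorem sum_map_nonpos (r : ℕ → ℝ) (l : List ℕ) (h : ∀ j ∈ l, r j ≤ 0) :
    (l.map r).sum ≤ 0 := by
  induction l with
  | nil => simp
  | cons x l ih =>
    rw [List.map_cons, List.sum_cons]
    have h1 := h x List.mem_cons_self
    have h2 := ih fun j hj => h j (List.mem_cons_of_mem _ hj)
    linarith

theorem norm_le_re_im {𝕜 : Type*} [RCLike 𝕜] (z : 𝕜) :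
    ‖z‖ ≤ |RCLike.re z| + |RCLike.im z| := by
  have h1 := RCLike.norm_sq_eq_def (z := z)
  have h2 := abs_nonneg (RCLike.re z)
  have h3 := abs_nonneg (RCLike.im z)
  have h4 := abs_mul_abs_self (RCLike.re z)
  have h5 := abs_mul_abs_self (RCLike.im z)
  by_contra hc
  push Not at hc
  nlinarith [norm_nonneg z]

theorem merge (r : ℕ → ℝ) (M : ℝ) : ∀ (n : ℕ) (l1 l2 : List ℕ), l1.length + l2.length = n →
    (∀ j ∈ l1, 0 ≤ r j ∧ r j ≤ M) → (∀ j ∈ l2, r j ≤ 0 ∧ -M ≤ r j) → ∀ c : ℝ, |c| ≤ M →
    |c + (l1.map r).sum + (l2.map r).sum| ≤ M →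
    ∃ l : List ℕ, l.Perm (l1 ++ l2) ∧ ∀ k, ∃ k1 k2,
      (l.take k).Perm (l1.take k1 ++ l2.take k2) ∧ |c + ((l.take k).map r).sum| ≤ M := by
  intro n
  induction n with
  | zero =>
    intro l1 l2 hl h1 h2 c hc hs
    have e1 : l1 = [] := List.eq_nil_of_length_eq_zero (by omega)
    have e2 : l2 = [] := List.eq_nil_of_length_eq_zero (by omega)
    subst e1 e2
    exact ⟨[], by simp, fun k => ⟨0, 0, by simp, by simpa using hc⟩⟩
  | succ n ih =>
    intro l1 l2 hl h1 h2 c hc hs
    -- take the head of `l2`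
    have stepY : ∀ y l2', l2 = y :: l2' → |c + r y| ≤ M →
        ∃ l : List ℕ, l.Perm (l1 ++ l2) ∧ ∀ k, ∃ k1 k2,
          (l.take k).Perm (l1.take k1 ++ l2.take k2) ∧ |c + ((l.take k).map r).sum| ≤ M := by
      intro y l2' hy hcy
      subst hy
      obtain ⟨l, hl1, hl2⟩ := ih l1 l2' (by simp at hl; omega) h1
        (fun j hj => h2 j (List.mem_cons_of_mem _ hj)) (c + r y) hcy (by
          rw [List.map_cons, List.sum_cons] at hs
          rwa [show c + r y + (l1.map r).sum + (l2'.map r).sum =
            c + (l1.map r).sum + (r y + (l2'.map r).sum) by ring])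
      refine ⟨y :: l, (hl1.cons y).trans List.perm_middle.symm, fun k => ?_⟩
      cases k with
      | zero => exact ⟨0, 0, by simp, by simpa using hc⟩
      | succ k =>
        obtain ⟨k1, k2, hk, hk'⟩ := hl2 k
        refine ⟨k1, k2 + 1, ?_, ?_⟩
        · rw [List.take_succ_cons, List.take_succ_cons]
          exact (hk.cons y).trans List.perm_middle.symm
        · rw [List.take_succ_cons, List.map_cons, List.sum_cons, ← add_assoc]
          exact hk'
    have stepX : ∀ x l1', l1 = x :: l1' → |c + r x| ≤ M →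
        ∃ l : List ℕ, l.Perm (l1 ++ l2) ∧ ∀ k, ∃ k1 k2,
          (l.take k).Perm (l1.take k1 ++ l2.take k2) ∧ |c + ((l.take k).map r).sum| ≤ M := by
      intro x l1' hx hcx
      subst hx
      obtain ⟨l, hl1, hl2⟩ := ih l1' l2 (by simp at hl; omega)
        (fun j hj => h1 j (List.mem_cons_of_mem _ hj)) h2 (c + r x) hcx (by
          rw [List.map_cons, List.sum_cons] at hs
          rwa [show c + r x + (l1'.map r).sum + (l2.map r).sum =
            c + (r x + (l1'.map r).sum) + (l2.map r).sum by ring])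
      refine ⟨x :: l, hl1.cons x, fun k => ?_⟩
      cases k with
      | zero => exact ⟨0, 0, by simp, by simpa using hc⟩
      | succ k =>
        obtain ⟨k1, k2, hk, hk'⟩ := hl2 k
        refine ⟨k1 + 1, k2, ?_, ?_⟩
        · rw [List.take_succ_cons, List.take_succ_cons]
          exact hk.cons x
        · rw [List.take_succ_cons, List.map_cons, List.sum_cons, ← add_assoc]
          exact hk'
    rw [abs_le] at hc hs
    rcases l1 with _ | ⟨x, l1'⟩
    · rcases l2 with _ | ⟨y, l2'⟩
      · simp at hl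
      · refine stepY y l2' rfl ?_
        have h3 : (l2'.map r).sum ≤ 0 :=
          sum_map_nonpos r l2' fun j hj => (h2 j (List.mem_cons_of_mem _ hj)).1
        have h4 := h2 y (List.mem_cons_self)
        simp only [List.map_nil, List.sum_nil, List.map_cons, List.sum_cons] at hs
        rw [abs_le]
        constructor <;> linarith [hc.1, hc.2, hs.1, hs.2]
    · rcases l2 with _ | ⟨y, l2'⟩
      · refine stepX x l1' rfl ?_
        have h3 : 0 ≤ (l1'.map r).sum := by
          refine List.sum_nonneg ?_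
          intro z hz
          rw [List.mem_map] at hz
          obtain ⟨j, hj, rfl⟩ := hz
          exact (h1 j (List.mem_cons_of_mem _ hj)).1
        have h4 := h1 x (List.mem_cons_self)
        simp only [List.map_nil, List.sum_nil, List.map_cons, List.sum_cons] at hs
        rw [abs_le]
        constructor <;> linarith [hc.1, hc.2, hs.1, hs.2]
      · by_cases h0 : 0 ≤ c
        · refine stepY y l2' rfl ?_
          have h4 := h2 y (List.mem_cons_self)
          rw [abs_le]
          constructor <;> linarith [hc.1, hc.2]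
        · refine stepX x l1' rfl ?_
          have h4 := h1 x (List.mem_cons_self)
          push Not at h0
          rw [abs_le]
          constructor <;> linarith [hc.1, hc.2]

theorem greedy_real (r : ℕ → ℝ) (M : ℝ) (l : List ℕ) (h : ∀ j ∈ l, |r j| ≤ M)
    (hM : 0 ≤ M) (hs : |(l.map r).sum| ≤ M) :
    ∃ l' : List ℕ, l'.Perm l ∧ ∀ k, |((l'.take k).map r).sum| ≤ M := by
  classical
  have hp := List.filter_append_perm (fun j => decide (0 ≤ r j)) l
  obtain ⟨l', h1, h2⟩ := merge r M _ (l.filter (fun j => decide (0 ≤ r j)))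
    (l.filter (fun j => !decide (0 ≤ r j))) rfl
    (fun j hj => by
      rw [List.mem_filter] at hj
      have h3 := h j hj.1
      rw [abs_le] at h3
      exact ⟨of_decide_eq_true hj.2, h3.2⟩)
    (fun j hj => by
      rw [List.mem_filter] at hj
      have h3 := h j hj.1
      rw [abs_le] at h3
      have h4 : ¬ 0 ≤ r j := by simpa using hj.2
      push Not at h4
      exact ⟨h4.le, h3.1⟩) 0 (by simpa using hM) (by
        rw [zero_add, ← List.sum_append, ← List.map_append, (hp.map r).sum_eq]
        exact hs)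
  refine ⟨l', h1.trans hp, fun k => ?_⟩
  obtain ⟨_, _, _, h3⟩ := h2 k
  rwa [zero_add] at h3

variable {𝕜 : Type*} [RCLike 𝕜]

theorem steinitz_list (a : ℕ → 𝕜) (M : ℝ) (A : Finset ℕ) (hA : ∀ j ∈ A, ‖a j‖ ≤ M)
    (hs : ∑ j ∈ A, a j = 0) (hM : 0 ≤ M) :
    ∃ l : List ℕ, l.Perm A.toList ∧ ∀ k, ‖((l.take k).map a).sum‖ ≤ 3 * M := by
  classical
  obtain ⟨B, hB, hmax⟩ := Finset.exists_max_image A.powerset (fun T => ‖∑ j ∈ T, a j‖)
    ⟨∅, Finset.empty_mem_powerset A⟩
  rw [Finset.mem_powerset] at hB
  set S := ∑ j ∈ B, a j with hS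
  by_cases hS0 : S = 0
  · refine ⟨A.toList, List.Perm.refl _, fun k => ?_⟩
    have h1 : ∀ j ∈ A, a j = 0 := by
      intro j hj
      have := hmax {j} (Finset.mem_powerset.2 (Finset.singleton_subset_iff.2 hj))
      rw [hS0, norm_zero, Finset.sum_singleton] at this
      exact norm_le_zero_iff.1 this
    have h2 : ((A.toList.take k).map a).sum = 0 := by
      refine List.sum_eq_zero ?_
      intro z hz
      rw [List.mem_map] at hz
      obtain ⟨j, hj, rfl⟩ := hz
      exact h1 j (Finset.mem_toList.1 (List.mem_of_mem_take hj))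
    rw [h2, norm_zero]
    linarith
  have hSn : 0 < ‖S‖ := norm_pos_iff.2 hS0
  obtain ⟨u, hu⟩ : ∃ u : 𝕜, u = (starRingEnd 𝕜) S / (‖S‖ : 𝕜) := ⟨_, rfl⟩
  have hun : ‖u‖ = 1 := by
    rw [hu, norm_div, RCLike.norm_conj, RCLike.norm_ofReal, abs_of_pos hSn, div_self hSn.ne']
  have huS : u * S = (‖S‖ : 𝕜) := by
    have h0 : (‖S‖ : 𝕜) ≠ 0 := by
      rw [Ne, RCLike.ofReal_eq_zero]
      exact hSn.ne'
    rw [hu, div_mul_eq_mul_div, RCLike.conj_mul, div_eq_iff h0]
    ring
  have hre : ∀ z : 𝕜, RCLike.re (u * z) ≤ ‖z‖ := fun z => by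
    have := RCLike.re_le_norm (u * z)
    rwa [norm_mul, hun, one_mul] at this
  have hpos : ∀ j ∈ B, 0 ≤ RCLike.re (u * a j) := by
    intro j hj
    by_contra hc
    push Not at hc
    have h1 := hmax (B.erase j) (Finset.mem_powerset.2 ((Finset.erase_subset _ _).trans hB))
    have h2 : ∑ i ∈ B.erase j, a i = S - a j := by
      rw [hS, ← Finset.add_sum_erase B a hj]
      ring
    rw [h2] at h1
    have h3 := hre (S - a j)
    rw [mul_sub, map_sub, huS, RCLike.ofReal_re] at h3
    linarith
  have hneg : ∀ j ∈ A \ B, RCLike.re (u * a j) ≤ 0 := by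
    intro j hj
    rw [Finset.mem_sdiff] at hj
    by_contra hc
    push Not at hc
    have h1 := hmax (insert j B) (Finset.mem_powerset.2 (Finset.insert_subset hj.1 hB))
    rw [Finset.sum_insert hj.2, ← hS] at h1
    have h3 := hre (a j + S)
    rw [mul_add, map_add, huS, RCLike.ofReal_re] at h3
    linarith
  have hAB : ∑ j ∈ A \ B, a j = - S := by
    have := Finset.sum_sdiff hB (f := a)
    rw [hs, ← hS] at this
    exact eq_neg_of_add_eq_zero_left this
  have him : ∀ T : Finset ℕ, (T.toList.map fun j => RCLike.im (u * a j)).sum =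
      RCLike.im (u * ∑ j ∈ T, a j) := by
    intro T
    rw [Finset.sum_map_toList, Finset.mul_sum, map_sum]
  have hiS : RCLike.im (u * S) = 0 := by rw [huS, RCLike.ofReal_im]
  have habs : ∀ j ∈ A, |RCLike.im (u * a j)| ≤ M := fun j hj => by
    have := RCLike.abs_im_le_norm (u * a j)
    rw [norm_mul, hun, one_mul] at this
    exact this.trans (hA j hj)
  have habsr : ∀ j ∈ A, |RCLike.re (u * a j)| ≤ M := fun j hj => by
    have := RCLike.abs_re_le_norm (u * a j)
    rw [norm_mul, hun, one_mul] at this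
    exact this.trans (hA j hj)
  obtain ⟨l1, hl1, hl1'⟩ := greedy_real (fun j => RCLike.im (u * a j)) M B.toList
    (fun j hj => habs j (hB (Finset.mem_toList.1 hj))) hM (by
      rw [him, ← hS, hiS, abs_zero]; exact hM)
  obtain ⟨l2, hl2, hl2'⟩ := greedy_real (fun j => RCLike.im (u * a j)) M (A \ B).toList
    (fun j hj => habs j (Finset.mem_sdiff.1 (Finset.mem_toList.1 hj)).1) hM (by
      rw [him, hAB, mul_neg, map_neg, hiS, neg_zero, abs_zero]; exact hM)
  have hsum : ∀ (l : List ℕ), (l.map fun j => RCLike.re (u * a j)).sum =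
      RCLike.re (u * (l.map a).sum) := by
    intro l
    induction l with
    | nil => simp
    | cons x l ih => rw [List.map_cons, List.sum_cons, ih, List.map_cons, List.sum_cons,
        mul_add, map_add]
  have hsumi : ∀ (l : List ℕ), (l.map fun j => RCLike.im (u * a j)).sum =
      RCLike.im (u * (l.map a).sum) := by
    intro l
    induction l with
    | nil => simp
    | cons x l ih => rw [List.map_cons, List.sum_cons, ih, List.map_cons, List.sum_cons,
        mul_add, map_add]
  obtain ⟨l, hl, hl'⟩ := merge (fun j => RCLike.re (u * a j)) M _ l1 l2 rfl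
    (fun j hj => by
      have h1 := Finset.mem_toList.1 (hl1.mem_iff.1 hj)
      exact ⟨hpos j h1, (abs_le.1 (habsr j (hB h1))).2⟩)
    (fun j hj => by
      have h1 := Finset.mem_toList.1 (hl2.mem_iff.1 hj)
      exact ⟨hneg j h1, (abs_le.1 (habsr j (Finset.mem_sdiff.1 h1).1)).1⟩) 0
    (by simpa using hM) (by
      rw [hsum, hsum, (hl1.map a).sum_eq, (hl2.map a).sum_eq, Finset.sum_map_toList,
        Finset.sum_map_toList, hAB, ← hS, mul_neg, map_neg]
      rw [zero_add, add_neg_cancel, abs_zero]
      exact hM)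
  refine ⟨l, ?_, fun k => ?_⟩
  · refine hl.trans ((hl1.append hl2).trans ?_)
    rw [List.perm_iff_count]
    intro x
    have hnd : (B.toList ++ (A \ B).toList).Nodup := by
      rw [List.nodup_append]
      refine ⟨Finset.nodup_toList _, Finset.nodup_toList _, ?_⟩
      intro y hy z hz hyz
      subst hyz
      exact (Finset.mem_sdiff.1 (Finset.mem_toList.1 hz)).2 (Finset.mem_toList.1 hy)
    rw [hnd.count, (Finset.nodup_toList A).count]
    congr 1
    simp only [List.mem_append, Finset.mem_toList, Finset.mem_sdiff, eq_iff_iff]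
    constructor
    · rintro (h | h)
      · exact hB h
      · exact h.1
    · intro h
      by_cases hx : x ∈ B
      · exact Or.inl hx
      · exact Or.inr ⟨h, hx⟩
  · obtain ⟨k1, k2, hk, hk'⟩ := hl' k
    have h1 : ‖((l.take k).map a).sum‖ ≤ |RCLike.re (u * ((l.take k).map a).sum)| +
        |RCLike.im (u * ((l.take k).map a).sum)| := by
      have := norm_le_re_im (u * ((l.take k).map a).sum)
      rwa [norm_mul, hun, one_mul] at this
    have h2 : |RCLike.re (u * ((l.take k).map a).sum)| ≤ M := by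
      rw [hsum, zero_add] at hk'
      exact hk'
    have h3 : |RCLike.im (u * ((l.take k).map a).sum)| ≤ M + M := by
      rw [← hsumi, (hk.map _).sum_eq, List.map_append, List.sum_append]
      exact (abs_add_le _ _).trans (add_le_add (hl1' k1) (hl2' k2))
    linarith

end Pool.Agent.H61.PB
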