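import Pool.Agent.H61.PB.Prod

/-!
# A general gluing principle for blocks
-/

namespace Pool.Agent.H61.PB

open Filter Topology

variable {𝕜 : Type*} [RCLike 𝕜] {E : Type*} [NormedAddCommGroup E] [NormedSpace 𝕜 E]

/-- A system of new vectors and functionals, organised in blocks. -/
structure Sys (e : ℕ → E) (f : ℕ → E →L[𝕜] 𝕜) where
  b : ℕ → ℕ
  blk : ℕ → ℕ
  x : ℕ → E
  F : ℕ → E →L[𝕜] 𝕜
  C : ℝ
  hb : StrictMono b
  hb0 : b 0 = 0
  hblk : ∀ n, b (blk n) ≤ n ∧ n < b (blk n + 1)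
  hof : ∀ i j, f i (e j) = if i = j then 1 else 0
  bio : ∀ i j, F i (x j) = if i = j then 1 else 0
  loc : ∀ k i, i ∈ Finset.Ico (b k) (b (k + 1)) → ∀ y z : E,
    (∀ m ∈ Finset.Ico (b k) (b (k + 1)), f m y = f m z) → F i y = F i z
  ord : ∀ k (y : E), ∃ p : Equiv.Perm ℕ, (∀ i ∉ Finset.Ico (b k) (b (k + 1)), p i = i) ∧
    (∀ N, b k ≤ N → N ≤ b (k + 1) →
      ‖∑ i ∈ Finset.Ico (b k) N, F (p i) y • x (p i)‖ ≤ C * ‖y‖) ∧
    ∑ i ∈ Finset.Ico (b k) (b (k + 1)), F (p i) y • x (p i) =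
      ∑ i ∈ Finset.Ico (b k) (b (k + 1)), f i y • e i
  ubd : ∃ M : ℝ, ∀ n y, ‖F n y‖ * ‖x n‖ ≤ M * ‖y‖

namespace Sys

variable {e : ℕ → E} {f : ℕ → E →L[𝕜] 𝕜} (B : Sys e f)

theorem blk_eq {n k : ℕ} (h : n ∈ Finset.Ico (B.b k) (B.b (k + 1))) : B.blk n = k :=
  blk_unique B.hb (B.hblk n).1 (B.hblk n).2 (Finset.mem_Ico.1 h).1 (Finset.mem_Ico.1 h).2

/-- The block part of a vector. -/
noncomputable def Y (y : E) (k : ℕ) : E := ∑ i ∈ Finset.Ico (B.b k) (B.b (k + 1)), f i y • e i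

theorem coord_Y (y : E) (k i : ℕ) (hi : i ∈ Finset.Ico (B.b k) (B.b (k + 1))) :
    f i (B.Y y k) = f i y := by
  unfold Y
  rw [map_sum]
  simp only [map_smul, B.hof, smul_eq_mul, mul_ite, mul_one, mul_zero]
  rw [Finset.sum_ite_eq, if_pos hi]

theorem perm_mem_Ico {s t : ℕ} {p : Equiv.Perm ℕ} (hp : ∀ i ∉ Finset.Ico s t, p i = i) {i : ℕ}
    (hi : i ∈ Finset.Ico s t) : p i ∈ Finset.Ico s t := perm_mem hp hi

theorem exists_order
    (hexp : ∀ y, Tendsto (fun N => ∑ i ∈ Finset.range N, f i y • e i) atTop (𝓝 y)) (y : E) :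
    ∃ σ : ℕ ≃ ℕ, Tendsto (fun N => ∑ i ∈ Finset.range N, B.F (σ i) y • B.x (σ i)) atTop
      (𝓝 y) := by
  choose p hp1 hp2 hp3 using fun k => B.ord k (B.Y y k)
  obtain ⟨σ, hσ⟩ := exists_glue B.b B.blk B.hb B.hblk p hp1
  refine ⟨σ, ?_⟩
  have hterm : ∀ k, ∀ i ∈ Finset.Ico (B.b k) (B.b (k + 1)),
      B.F (σ i) y • B.x (σ i) = B.F (p k i) (B.Y y k) • B.x (p k i) := by
    intro k i hi
    have hk := B.blk_eq hi
    have h1 : σ i = p k i := by rw [hσ, hk]
    have h2 : p k i ∈ Finset.Ico (B.b k) (B.b (k + 1)) := perm_mem_Ico (hp1 k) hi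
    rw [h1]
    congr 1
    refine B.loc k _ h2 _ _ fun m hm => ?_
    rw [B.coord_Y y k m hm]
  have hfull : ∀ k, ∑ i ∈ Finset.range (B.b k), B.F (σ i) y • B.x (σ i) =
      ∑ i ∈ Finset.range (B.b k), f i y • e i := by
    intro k
    induction k with
    | zero => rw [B.hb0]; simp
    | succ k ih =>
      have hle : B.b k ≤ B.b (k + 1) := B.hb.monotone (Nat.le_succ k)
      rw [← Finset.sum_range_add_sum_Ico _ hle, ← Finset.sum_range_add_sum_Ico _ hle, ih]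
      congr 1
      rw [Finset.sum_congr rfl (hterm k), hp3 k]
      exact Finset.sum_congr rfl fun i hi => by rw [B.coord_Y y k i hi]
  have hYt : Tendsto (fun k => B.Y y k) atTop (𝓝 0) := by
    have hbt : Tendsto B.b atTop atTop := B.hb.tendsto_atTop
    have h1 := ((hexp y).comp hbt)
    have h2 := ((hexp y).comp (hbt.comp (tendsto_add_atTop_nat 1)))
    have h3 := h2.sub h1
    rw [sub_self] at h3
    refine h3.congr fun k => ?_
    simp only [Function.comp, Y]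
    rw [Finset.sum_Ico_eq_sub _ (B.hb.monotone (Nat.le_succ k))]
  have hblkt : Tendsto B.blk atTop atTop := by
    rw [tendsto_atTop]
    intro k
    filter_upwards [eventually_ge_atTop (B.b k)] with N hN
    by_contra hc
    push Not at hc
    have h1 := B.hb.monotone (show B.blk N + 1 ≤ k by omega)
    have h2 := (B.hblk N).2
    omega
  have hD : Tendsto (fun k => ‖(∑ i ∈ Finset.range (B.b k), f i y • e i) - y‖ +
      B.C * ‖B.Y y k‖) atTop (𝓝 0) := by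
    have h1 := (((hexp y).comp B.hb.tendsto_atTop).sub_const y).norm
    have h2 := hYt.norm.const_mul B.C
    have h3 := h1.add h2
    rw [sub_self, norm_zero, mul_zero, add_zero] at h3
    exact h3
  rw [tendsto_iff_norm_sub_tendsto_zero]
  refine squeeze_zero (fun N => norm_nonneg _) (fun N => ?_) (hD.comp hblkt)
  have hN := B.hblk N
  simp only [Function.comp]
  rw [← Finset.sum_range_add_sum_Ico _ hN.1, hfull]
  have h1 : ∑ i ∈ Finset.Ico (B.b (B.blk N)) N, B.F (σ i) y • B.x (σ i) =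
      ∑ i ∈ Finset.Ico (B.b (B.blk N)) N, B.F (p (B.blk N) i) (B.Y y (B.blk N)) •
        B.x (p (B.blk N) i) := by
    refine Finset.sum_congr rfl fun i hi => hterm _ i ?_
    rw [Finset.mem_Ico] at hi ⊢
    exact ⟨hi.1, hi.2.trans hN.2⟩
  rw [h1, add_sub_right_comm]
  exact (norm_add_le _ _).trans (add_le_add le_rfl (hp2 (B.blk N) N hN.1 hN.2.le))

theorem uniq (σ : ℕ ≃ ℕ) (β : ℕ → 𝕜) (y : E) (h : Expands 𝕜 (B.x ∘ σ) β y) (i : ℕ) :
    β i = B.F (σ i) y := by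
  have h1 := ((B.F (σ i)).continuous.tendsto y).comp h
  refine tendsto_nhds_unique (tendsto_const_nhds.congr' ?_) h1
  filter_upwards [eventually_gt_atTop i] with N hN
  simp only [Function.comp, map_sum, map_smul, B.bio, EmbeddingLike.apply_eq_iff_eq, smul_eq_mul,
    mul_ite, mul_one, mul_zero]
  rw [Finset.sum_ite_eq, if_pos (Finset.mem_range.2 hN)]

theorem isMinimal : IsMinimal 𝕜 B.x := by
  intro m hm
  have h1 : (Submodule.span 𝕜 (B.x '' {n | n ≠ m}) : Set E) ⊆ (B.F m).ker := by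
    refine Submodule.span_le.2 ?_
    rintro _ ⟨n, hn, rfl⟩
    change B.F m (B.x n) = 0
    rw [B.bio, if_neg fun e => hn e.symm]
  have h2 := closure_minimal h1 (B.F m).isClosed_ker hm
  change B.F m (B.x m) = 0 at h2
  rw [B.bio, if_pos rfl] at h2
  exact one_ne_zero h2

theorem propU
    (hexp : ∀ y, Tendsto (fun N => ∑ i ∈ Finset.range N, f i y • e i) atTop (𝓝 y)) :
    PropU 𝕜 B.x := by
  intro y
  refine ⟨fun n => B.F n y, ?_, ?_⟩
  · obtain ⟨σ, hσ⟩ := B.exists_order hexp y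
    exact ⟨σ, hσ⟩
  · rintro β ⟨σ, hσ⟩
    funext n
    have := B.uniq σ _ y hσ (σ.symm n)
    simpa using this

theorem unif_minimal : ∃ M : ℝ, ∀ m, 0 < ‖B.x m‖ ∧
    ∀ z ∈ Submodule.span 𝕜 (B.x '' {n | n ≠ m}), ‖B.x m‖ ≤ M * ‖B.x m - z‖ := by
  obtain ⟨M, hM⟩ := B.ubd
  refine ⟨M, fun m => ⟨?_, fun z hz => ?_⟩⟩
  · rw [norm_pos_iff]
    intro h
    have h1 := B.bio m m
    rw [h, map_zero, if_pos rfl] at h1
    exact zero_ne_one h1
  · have h1 : (Submodule.span 𝕜 (B.x '' {n | n ≠ m}) : Set E) ⊆ (B.F m).ker := by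
      refine Submodule.span_le.2 ?_
      rintro _ ⟨n, hn, rfl⟩
      change B.F m (B.x n) = 0
      rw [B.bio, if_neg fun e => hn e.symm]
    have h2 : B.F m z = 0 := h1 hz
    have h3 : B.F m (B.x m - z) = 1 := by
      rw [map_sub, h2, B.bio, if_pos rfl, sub_zero]
    have h4 := hM m (B.x m - z)
    rwa [h3, norm_one, one_mul] at h4

/-- If a permutation is a basis, its partial sum operators are uniformly bounded. -/
theorem bound_of_basis [CompleteSpace E] (τ : ℕ ≃ ℕ) (hb : IsBasis 𝕜 (B.x ∘ τ)) :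
    ∃ C : ℝ, 0 ≤ C ∧ ∀ (N : ℕ) (J : Finset ℕ) (a : ℕ → 𝕜),
      ‖∑ j ∈ J, if τ.symm j < N then a j • B.x j else 0‖ ≤ C * ‖∑ j ∈ J, a j • B.x j‖ := by
  classical
  let S : ℕ → E →L[𝕜] E := fun N =>
    ∑ i ∈ Finset.range N, (B.F (τ i)).smulRight (B.x (τ i))
  have hS : ∀ N y, S N y = ∑ i ∈ Finset.range N, B.F (τ i) y • B.x (τ i) := by
    intro N y; simp [S]
  obtain ⟨C, hC⟩ : ∃ C, ∀ N, ‖S N‖ ≤ C := by
    refine banach_steinhaus fun y => ?_
    obtain ⟨α, hα, -⟩ := hb y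
    obtain ⟨C, hC⟩ := (hα.norm).bddAbove_range
    refine ⟨C, fun N => hC ⟨N, ?_⟩⟩
    rw [hS]
    simp only [B.uniq τ α y hα, Function.comp]
  have hC0 : 0 ≤ C := (ContinuousLinearMap.opNorm_nonneg _).trans (hC 0)
  have hSx : ∀ N j, S N (B.x j) = if τ.symm j < N then B.x j else 0 := by
    intro N j
    rw [hS]
    simp only [B.bio, ite_smul, one_smul, zero_smul]
    have : ∀ i, (τ i = j) ↔ (i = τ.symm j) := fun i => by
      rw [Equiv.eq_symm_apply]
    simp only [this]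
    rw [Finset.sum_ite_eq']
    simp only [Finset.mem_range, Equiv.apply_symm_apply]
  refine ⟨C, hC0, fun N J a => ?_⟩
  have h1 : S N (∑ j ∈ J, a j • B.x j) = ∑ j ∈ J, if τ.symm j < N then a j • B.x j else 0 := by
    rw [map_sum]
    refine Finset.sum_congr rfl fun j _ => ?_
    rw [map_smul, hSx]
    split_ifs
    · rfl
    · rw [smul_zero]
  rw [← h1]
  exact (S N).le_of_opNorm_le (hC N) _

end Sys

end Pool.Agent.H61.PB
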