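import Pool.Agent.H61.PB.Final

namespace Pool.Agent.H61.PB

open Filter Topology

variable {𝕜 : Type*} [RCLike 𝕜] {E : Type*} [NormedAddCommGroup E] [NormedSpace 𝕜 E]

namespace BlockData

variable {e : ℕ → E} {f : ℕ → E →L[𝕜] 𝕜} (B : BlockData e f)

theorem unif_bound (n : ℕ) (y : E) :
    ‖B.F n y‖ * ‖B.x n‖ ≤ (2 * B.K + 2 * (B.K + 2 * B.K ^ 2) + 2 * |B.K₂|) * ‖y‖ := by
  have hK0 := B.hK0
  have hy0 := norm_nonneg y
  have h2 := abs_nonneg B.K₂
  have p1 : 0 ≤ B.K * ‖y‖ := by positivity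
  have p2 : 0 ≤ B.K ^ 2 * ‖y‖ := by positivity
  have p3 : 0 ≤ |B.K₂| * ‖y‖ := by positivity
  obtain ⟨k, hk⟩ : ∃ k, k = B.blk n := ⟨_, rfl⟩
  unfold F x newF newX
  rw [← hk]
  have hcoord : ∀ j ∈ insert (B.q k) (B.A k), ∀ z, ‖f j z‖ ≤ B.K * ‖z‖ := by
    intro j hj z
    have h := B.hK k {j} (Finset.singleton_subset_iff.2 hj) z
    rw [Finset.sum_singleton, norm_smul, B.hn k j hj, mul_one] at h
    exact h
  by_cases h1 : n = B.q k
  · rw [if_pos h1, if_pos h1]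
    have := B.hw2 k y
    nlinarith
  · rw [if_neg h1, if_neg h1]
    have h3 : (f n - (f n (B.w k)) • phi f (B.q k) (B.A k)) y =
      f n y - f n (B.w k) * phi f (B.q k) (B.A k) y := by simp
    rw [h3]
    by_cases h4 : n ∈ B.A k
    · rw [if_pos h4]
      have hni : n ∈ insert (B.q k) (B.A k) := Finset.mem_insert_of_mem h4
      have c1 : ‖e n + e (B.q k)‖ ≤ 2 := by
        refine (norm_add_le _ _).trans ?_
        rw [B.hn k n hni, B.hn k (B.q k) (Finset.mem_insert_self _ _)]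
        norm_num
      have c2 : ‖f n y - f n (B.w k) * phi f (B.q k) (B.A k) y‖ ≤
          B.K * ‖y‖ + B.K * (2 * B.K * ‖y‖) := by
        refine (norm_sub_le _ _).trans ?_
        rw [norm_mul]
        refine add_le_add (hcoord n hni y) ?_
        calc ‖f n (B.w k)‖ * ‖phi f (B.q k) (B.A k) y‖
            ≤ (B.K * ‖B.w k‖) * ‖phi f (B.q k) (B.A k) y‖ := by
              gcongr
              exact hcoord n hni _
          _ = B.K * (‖phi f (B.q k) (B.A k) y‖ * ‖B.w k‖) := by ring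
          _ ≤ B.K * (2 * B.K * ‖y‖) := mul_le_mul_of_nonneg_left (B.hw2 k y) hK0
      calc ‖f n y - f n (B.w k) * phi f (B.q k) (B.A k) y‖ * ‖e n + e (B.q k)‖
          ≤ (B.K * ‖y‖ + B.K * (2 * B.K * ‖y‖)) * 2 := by gcongr
        _ ≤ _ := by nlinarith
    · rw [if_neg h4]
      have h5 : f n (B.w k) = 0 := B.hw0 k n (by
        rw [Finset.mem_insert]
        push Not
        exact ⟨h1, h4⟩)
      rw [h5, zero_mul, sub_zero, ← norm_smul]
      have h6 : f n y • e n = ∑ i ∈ Finset.range (n + 1), f i y • e i -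
          ∑ i ∈ Finset.range n, f i y • e i := by
        rw [Finset.sum_range_succ]
        abel
      rw [h6]
      have c1 := norm_sub_le (∑ i ∈ Finset.range (n + 1), f i y • e i)
        (∑ i ∈ Finset.range n, f i y • e i)
      have c2 := B.hK2 (n + 1) y
      have c3 := B.hK2 n y
      have c4 : B.K₂ * ‖y‖ ≤ |B.K₂| * ‖y‖ := mul_le_mul_of_nonneg_right (le_abs_self _) hy0
      nlinarith

theorem x_ne_zero (m : ℕ) : 0 < ‖B.x m‖ := by
  rw [norm_pos_iff]
  intro h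
  have h1 := B.bio m m
  rw [h, map_zero, if_pos rfl] at h1
  exact zero_ne_one h1

theorem unif_minimal : ∃ M : ℝ, ∀ m, 0 < ‖B.x m‖ ∧
    ∀ z ∈ Submodule.span 𝕜 (B.x '' {n | n ≠ m}), ‖B.x m‖ ≤ M * ‖B.x m - z‖ := by
  refine ⟨2 * B.K + 2 * (B.K + 2 * B.K ^ 2) + 2 * |B.K₂|, fun m =>
    ⟨B.x_ne_zero m, fun z hz => ?_⟩⟩
  · have h1 : (Submodule.span 𝕜 (B.x '' {n | n ≠ m}) : Set E) ⊆ (B.F m).ker := by
      refine Submodule.span_le.2 ?_
      rintro _ ⟨n, hn, rfl⟩
      change B.F m (B.x n) = 0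
      rw [B.bio, if_neg fun e => hn e.symm]
    have h2 : B.F m z = 0 := h1 hz
    have h3 : B.F m (B.x m - z) = 1 := by
      rw [map_sub, h2, B.bio, if_pos rfl, sub_zero]
    have h4 := B.unif_bound m (B.x m - z)
    rwa [h3, norm_one, one_mul] at h4

end BlockData

end Pool.Agent.H61.PB
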