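import Pool.Agent.H61.PB.Glue

namespace Pool.Agent.H61.PB

open Filter Topology

variable {𝕜 : Type*} [RCLike 𝕜] {E : Type*} [NormedAddCommGroup E] [NormedSpace 𝕜 E]

/-- Everything about the blocks. -/
structure BlockData (e : ℕ → E) (f : ℕ → E →L[𝕜] 𝕜) where
  b : ℕ → ℕ
  blk : ℕ → ℕ
  q : ℕ → ℕ
  A : ℕ → Finset ℕ
  w : ℕ → E
  K : ℝ
  K₂ : ℝ
  hb : StrictMono b
  hb0 : b 0 = 0
  hblk : ∀ n, b (blk n) ≤ n ∧ n < b (blk n + 1)
  hof : ∀ i j, f i (e j) = if i = j then 1 else 0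
  hq : ∀ k, q k ∉ A k
  hqs : ∀ k, q k ∈ Finset.Ico (b k) (b (k + 1))
  hAs : ∀ k, A k ⊆ Finset.Ico (b k) (b (k + 1))
  hK0 : 0 ≤ K
  hK : ∀ k, ∀ T ⊆ insert (q k) (A k), ∀ y, ‖∑ i ∈ T, f i y • e i‖ ≤ K * ‖y‖
  hK2 : ∀ N y, ‖∑ i ∈ Finset.range N, f i y • e i‖ ≤ K₂ * ‖y‖
  hn : ∀ k, ∀ i ∈ insert (q k) (A k), ‖e i‖ = 1
  hw1 : ∀ k, phi f (q k) (A k) (w k) = 1
  hw2 : ∀ k y, ‖phi f (q k) (A k) y‖ * ‖w k‖ ≤ 2 * K * ‖y‖
  hw3 : ∀ k, ∑ i ∈ insert (q k) (A k), f i (w k) • e i = w k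

namespace BlockData

variable {e : ℕ → E} {f : ℕ → E →L[𝕜] 𝕜} (B : BlockData e f)

/-- The new sequence. -/
noncomputable def x (n : ℕ) : E := newX e (B.q (B.blk n)) (B.A (B.blk n)) (B.w (B.blk n)) n

/-- The new coordinate functionals. -/
noncomputable def F (n : ℕ) : E →L[𝕜] 𝕜 :=
  newF f (B.q (B.blk n)) (B.A (B.blk n)) (B.w (B.blk n)) n

theorem blk_eq {n k : ℕ} (h : n ∈ Finset.Ico (B.b k) (B.b (k + 1))) : B.blk n = k :=
  blk_unique B.hb (B.hblk n).1 (B.hblk n).2 (Finset.mem_Ico.1 h).1 (Finset.mem_Ico.1 h).2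

theorem hw0 (k : ℕ) : ∀ i, i ∉ insert (B.q k) (B.A k) → f i (B.w k) = 0 := by
  intro i hi
  rw [← B.hw3 k, map_sum]
  refine Finset.sum_eq_zero fun j hj => ?_
  rw [map_smul, B.hof, if_neg]
  · simp
  · rintro rfl
    exact hi hj

theorem ins_sub (k : ℕ) : ∀ m ∈ insert (B.q k) (B.A k),
    m ∈ Finset.Ico (B.b k) (B.b (k + 1)) := by
  intro m hm
  rw [Finset.mem_insert] at hm
  rcases hm with rfl | hm
  · exact B.hqs k
  · exact B.hAs k hm

theorem ins_blk (n : ℕ) : ∀ m ∈ insert n (insert (B.q (B.blk n)) (B.A (B.blk n))),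
    B.blk m = B.blk n := by
  intro m hm
  rw [Finset.mem_insert] at hm
  rcases hm with rfl | hm
  · rfl
  · exact B.blk_eq (B.ins_sub _ m hm)

theorem bio (i j : ℕ) : B.F i (B.x j) = if i = j then 1 else 0 := by
  by_cases h : B.blk i = B.blk j
  · unfold F x
    rw [h]
    exact bio_same e f B.hof _ _ (B.hq _) _ (B.hw1 _) i j
  · rw [if_neg (fun h' => h (by rw [h']))]
    unfold F
    rw [newF_congr f _ _ _ i (B.x j) 0, map_zero]
    intro m hm
    rw [map_zero]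
    refine coord_newX e f B.hof _ _ _ (B.hw0 _) j m fun hm2 => h ?_
    rw [← B.ins_blk i m hm, ← B.ins_blk j m hm2]

/-- The block part of a vector. -/
noncomputable def Y (y : E) (k : ℕ) : E := ∑ i ∈ Finset.Ico (B.b k) (B.b (k + 1)), f i y • e i

theorem coord_Y (y : E) (k i : ℕ) (hi : i ∈ Finset.Ico (B.b k) (B.b (k + 1))) :
    f i (B.Y y k) = f i y := by
  unfold Y
  rw [map_sum]
  simp only [map_smul, B.hof, smul_eq_mul, mul_ite, mul_one, mul_zero]
  rw [Finset.sum_ite_eq, if_pos hi]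

theorem exists_order (hst : SteinitzProp 𝕜)
    (hexp : ∀ y, Tendsto (fun N => ∑ i ∈ Finset.range N, f i y • e i) atTop (𝓝 y)) (y : E) :
    ∃ σ : ℕ ≃ ℕ, Tendsto (fun N => ∑ i ∈ Finset.range N, B.F (σ i) y • B.x (σ i)) atTop
      (𝓝 y) := by
  choose p hp1 hp2 hp3 using fun k => block1 hst e f B.hof (B.b k) (B.b (k + 1)) (B.q k) (B.A k)
    (B.hq k) (B.hqs k) (B.hAs k) B.K B.K₂ B.hK0 (B.hK k) B.hK2 (B.hn k) (B.w k) (B.hw1 k)
    (B.hw2 k) (B.hw3 k) (B.Y y k)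
  obtain ⟨σ, hσ⟩ := exists_glue B.b B.blk B.hb B.hblk p
    (fun k i hi => hp1 k i fun h => hi (B.hAs k h))
  refine ⟨σ, ?_⟩
  set C := 2 * B.K₂ + 8 * (B.K * (1 + 2 * B.K)) + 4 * B.K with hC
  have hterm : ∀ k, ∀ i ∈ Finset.Ico (B.b k) (B.b (k + 1)),
      B.F (σ i) y • B.x (σ i) = newF f (B.q k) (B.A k) (B.w k) (p k i) (B.Y y k) •
        newX e (B.q k) (B.A k) (B.w k) (p k i) := by
    intro k i hi
    have hk := B.blk_eq hi
    have h1 : σ i = p k i := by rw [hσ, hk]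
    have h2 : p k i ∈ Finset.Ico (B.b k) (B.b (k + 1)) := by
      by_cases hiA : i ∈ B.A k
      · exact B.hAs k (perm_mem (hp1 k) hiA)
      · rw [hp1 k i hiA]
        exact hi
    have h3 := B.blk_eq h2
    rw [h1]
    unfold F x
    rw [h3]
    congr 1
    refine newF_congr f _ _ _ _ _ _ fun m hm => ?_
    rw [B.coord_Y]
    rw [Finset.mem_insert] at hm
    rcases hm with rfl | hm
    · exact h2
    · exact B.ins_sub _ m hm
  have hfull : ∀ k, ∑ i ∈ Finset.range (B.b k), B.F (σ i) y • B.x (σ i) =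
      ∑ i ∈ Finset.range (B.b k), f i y • e i := by
    intro k
    induction k with
    | zero => rw [B.hb0]; simp
    | succ k ih =>
      have hle : B.b k ≤ B.b (k + 1) := B.hb.monotone (Nat.le_succ k)
      rw [← Finset.sum_range_add_sum_Ico _ hle, ← Finset.sum_range_add_sum_Ico _ hle, ih]
      congr 1
      rw [Finset.sum_congr rfl (hterm k), hp3 k]
      exact Finset.sum_congr rfl fun i hi => by rw [B.coord_Y y k i hi]
  have hYt : Tendsto (fun k => B.Y y k) atTop (𝓝 0) := by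
    have hbt : Tendsto B.b atTop atTop := B.hb.tendsto_atTop
    have h1 := ((hexp y).comp hbt)
    have h2 := ((hexp y).comp (hbt.comp (tendsto_add_atTop_nat 1)))
    have h3 := h2.sub h1
    rw [sub_self] at h3
    refine h3.congr fun k => ?_
    simp only [Function.comp, Y]
    rw [Finset.sum_Ico_eq_sub _ (B.hb.monotone (Nat.le_succ k))]
  have hblkt : Tendsto B.blk atTop atTop := by
    rw [tendsto_atTop]
    intro k
    filter_upwards [eventually_ge_atTop (B.b k)] with N hN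
    by_contra hc
    push Not at hc
    have h1 := B.hb.monotone (show B.blk N + 1 ≤ k by omega)
    have h2 := (B.hblk N).2
    omega
  have hD : Tendsto (fun k => ‖(∑ i ∈ Finset.range (B.b k), f i y • e i) - y‖ + C * ‖B.Y y k‖)
      atTop (𝓝 0) := by
    have h1 := (((hexp y).comp B.hb.tendsto_atTop).sub_const y).norm
    have h2 := hYt.norm.const_mul C
    have h3 := h1.add h2
    rw [sub_self, norm_zero, mul_zero, add_zero] at h3
    exact h3
  rw [tendsto_iff_norm_sub_tendsto_zero]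
  refine squeeze_zero (fun N => norm_nonneg _) (fun N => ?_) (hD.comp hblkt)
  have hN := B.hblk N
  simp only [Function.comp]
  rw [← Finset.sum_range_add_sum_Ico _ hN.1, hfull]
  have h1 : ∑ i ∈ Finset.Ico (B.b (B.blk N)) N, B.F (σ i) y • B.x (σ i) =
      ∑ i ∈ Finset.Ico (B.b (B.blk N)) N, newF f (B.q (B.blk N)) (B.A (B.blk N)) (B.w (B.blk N))
        (p (B.blk N) i) (B.Y y (B.blk N)) •
        newX e (B.q (B.blk N)) (B.A (B.blk N)) (B.w (B.blk N)) (p (B.blk N) i) := by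
    refine Finset.sum_congr rfl fun i hi => hterm _ i ?_
    rw [Finset.mem_Ico] at hi ⊢
    exact ⟨hi.1, hi.2.trans hN.2⟩
  rw [h1, add_sub_right_comm]
  exact (norm_add_le _ _).trans (add_le_add le_rfl (hp2 (B.blk N) N hN.1 hN.2.le))

end BlockData

end Pool.Agent.H61.PB
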